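import Pool.Agent.V11207.SF.TP

/-!
# The twists of `X_0(14)` over `ℚ(√d : d ∈ S)`, `K(√d : d ∈ S)` and `K(√D, √d : d ∈ S)`
-/

set_option autoImplicit false
set_option linter.unusedSectionVars false

open Finset NumberField IsDedekindDomain

namespace Pool.Agent.V11207.SF

open scoped Classical

open Pool.Agent.Y687.MQ (AdmD matD)
open Pool.Agent.Y682.YQ (H9)
open Pool.Agent.Y682.XD (RR mq mq_insert)
open Pool.Agent.Y700 (WM)
open Pool.Agent.Y682.XF (base)
open Pool.Agent.TH841.NF.D (Sha)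
open Pool.Agent.Y682 (gc)
open Pool.Agent.Y723.QT (Kl)
open Pool.Agent.V11291.RG
open Pool.Agent.V11291.JH (Ex)

lemma cl_odd {b : ℤ} (hb : Cl b) : ¬ 2 ∣ b := by
  have h := hb.1.2.1
  omega

lemma pairB {b : ℤ} (hb : Cl b) :
    Pool.Agent.Results.MP_78d38b_nt.TwoTorsionStability.Pair (13 * b) (128 * b ^ 2) :=
  MS.pair_tw pair_14 (cl_odd hb) (Or.inr (Or.inr (by norm_num)))

lemma plainB {b : ℤ} (hb : Cl b) : MS.Plain (13 * b) (128 * b ^ 2) := by
  have h := hb.1.2.1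
  unfold MS.Plain
  refine Or.inr (Or.inl ⟨by omega, by omega⟩)

lemma baseB {S : Finset ℤ} (hS : ∀ d ∈ S, Cl d) (hI : Inde S) {b : ℤ} (hb : Cl b) :
    MS.IsBase (13 * b) (128 * b ^ 2) S := by
  refine ⟨fun d hd => cl_odd (hS d hd), Or.inr (Or.inr ?_), hI⟩
  have h1 : 0 < b ^ 2 := by
    have := hb.1.1.ne_zero
    positivity
  nlinarith

lemma primesB {S : Finset ℤ} (hS : ∀ d ∈ S, Cl d) {b : ℤ} (hb : Cl b) (p : ℕ) (hp : p.Prime)
    (hpd : (p : ℤ) ∣ 128 * b ^ 2 * ((13 * b) ^ 2 - 4 * (128 * b ^ 2)) * ∏ d ∈ S, d) :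
    p = 3 ∨ p % 9 = 2 ∨ p % 9 = 4 ∨ p % 9 = 5 ∨ p % 9 = 7 := by
  have hp' := Nat.prime_iff_prime_int.1 hp
  have e1 : 128 * b ^ 2 * ((13 * b) ^ 2 - 4 * (128 * b ^ 2)) * ∏ d ∈ S, d =
      b ^ 4 * (128 * ((13 : ℤ) ^ 2 - 4 * 128) * ∏ d ∈ S, d) := by ring
  rw [e1] at hpd
  rcases hp'.dvd_or_dvd hpd with h | h
  · exact Or.inr (hb.2 p hp (hp'.dvd_of_dvd_pow h))
  · exact primes_14 hS p hp h

/-- **From `ℚ(√d : d ∈ S)` to `K(√d : d ∈ S)`**, for the twist by `b`. -/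
theorem base_twist {S : Finset ℤ} (hS : ∀ d ∈ S, Cl d) (hI : Inde S) {b : ℤ} (hb : Cl b) (m : ℕ)
    (K : IntermediateField ℚ ℂ) [NumberField K]
    (hK : K ≤ IntermediateField.adjoin ℚ {z : ℂ | z ^ (3 ^ (m + 1)) = 1})
    (hodd : Odd (Module.finrank ℚ K)) (F₀ F : IntermediateField ℚ ℂ) [NumberField F₀]
    [NumberField F] (hF₀ : F₀ = mq S) (hF : F = mq S ⊔ K) :
    RR F b = RR F₀ b ∧
    (Finite (AddCommGroup.primaryComponent (Sha (base (WM b) F)) 2) ↔
      MS.FiniteTwists (13 * b) (128 * b ^ 2) S) ∧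
    (Finite (AddCommGroup.primaryComponent (Sha (base (WM b) F₀)) 2) ↔
      MS.FiniteTwists (13 * b) (128 * b ^ 2) S) ∧
    ∀ n, (∀ T ⊆ S, MS.Killed (Pool.Agent.TH841.SH.D.Sha
      (MS.curve (13 * b * ∏ d ∈ T, d) (128 * b ^ 2 * (∏ d ∈ T, d) ^ 2) ℚ)) n) →
        Kl (Sha (base (WM b) F)) (S.card + n) := by
  obtain ⟨-, -, h3, h4, h5, h6⟩ := (MS.main (13 * b) (128 * b ^ 2) (pairB hb) S
    (baseB hS hI hb)).2 (plainB hb) (primesB hS hb) m K hK hodd F F₀ hF hF₀
  have hb4 := hb.1.2.1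
  have hb0 := hb.1.1.ne_zero
  have hd : (13 * b) ^ 2 - 4 * (128 * b ^ 2) ≠ 0 := by
    have e1 : (13 * b) ^ 2 - 4 * (128 * b ^ 2) = -343 * b ^ 2 := by ring
    rw [e1]
    exact mul_ne_zero (by norm_num) (pow_ne_zero 2 hb0)
  have key : ∀ (G : Type) [Field G] [NumberField G],
      Finite (AddCommGroup.primaryComponent (Sha (base (WM b) G)) 2) ↔
        Finite (AddCommGroup.primaryComponent (Sha (gc (13 * b) (128 * b ^ 2) G)) 2) := by
    intro G _ _
    rw [fin_base G hb4, fin_iff (two_fin (mul_ne_zero (by norm_num) (pow_ne_zero 2 hb0)) hd G)]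
    simp only [kl_base G hb4]
  refine ⟨h3, ?_, ?_, fun n hn => ?_⟩
  · rw [key F]
    exact h4
  · rw [key F₀]
    exact h5
  · rw [kl_base F hb4]
    exact h6 n hn

/-- **The towers**, the exponents. -/
theorem tower_kl {B S : Finset ℤ} {d : ℕ → ℤ} (hB : ∀ b ∈ B, Cl b)
    (hd : ∀ n, (∀ x ∈ S ∪ (range n).image d, Cl x) ∧ ExB B (S ∪ (range n).image d) (d n))
    (m : ℕ) (K : IntermediateField ℚ ℂ) [NumberField K]
    (hK : K ≤ IntermediateField.adjoin ℚ {z : ℂ | z ^ (3 ^ (m + 1)) = 1})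
    (hodd : Odd (Module.finrank ℚ K)) (F : IntermediateField ℚ ℂ) [NumberField F]
    (hF : F = mq S ⊔ K) (n : ℕ) : ∀ (F' : IntermediateField ℚ ℂ) [NumberField F'],
      F' = mq (S ∪ (range n).image d) ⊔ K → ∀ b ∈ B, ∀ e, Kl (Sha (base (WM b) F)) (S.card + e) →
        Kl (Sha (base (WM b) F')) (S.card + e + n) := by
  induction n with
  | zero =>
    intro F' _ hF' b hb e he
    rw [range_zero, image_empty, union_empty] at hF'
    have e : F' = F := by rw [hF', hF]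
    subst e
    exact he
  | succ n ih =>
    intro F' _ hF' b hb e he
    obtain ⟨h1, h2⟩ := hd n
    have e1 : S ∪ (range (n + 1)).image d = insert (d n) (S ∪ (range n).image d) := by
      rw [range_add_one, image_insert, union_insert]
    rw [e1] at hF'
    have hfd : FiniteDimensional ℚ (mq (S ∪ (range n).image d) ⊔ K : IntermediateField ℚ ℂ) :=
      (rr_subK K _ fun x hx => (h1 x hx).1.1.ne_zero).1
    have hN : NumberField (mq (S ∪ (range n).image d) ⊔ K : IntermediateField ℚ ℂ) :=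
      { to_charZero := inferInstance, to_finiteDimensional := hfd }
    have g := ih (mq (S ∪ (range n).image d) ⊔ K) rfl b hb e he
    have hdn : Cl (d n) := by
      have h3 := (hd (n + 1)).1 (d n)
      rw [e1] at h3
      exact h3 (mem_insert_self _ _)
    have hcard : (S ∪ (range n).image d).card ≤ S.card + e + n := by
      have h3 := card_union_le S ((range n).image d)
      have h4 := card_image_le (s := range n) (f := d)
      rw [card_range] at h4
      omega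
    exact (step h1 (hB b hb) hdn (h2 b hb) m K hK hodd _ F' rfl hF').2.1 _ hcard g

end Pool.Agent.V11207.SF
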