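import Pool.Agent.V11207.SF.Step1
import Pool.Agent.V11291.RG.Main
import Pool.Agent.Y682.StabH

/-!
# Stability over composites with multiquadratic fields

If the rank and the 2-primary part of `Ш` of all the twists of a curve by the products of the elements of
`S` are the same over `K` and over `ℚ`, then the rank and the finiteness of the 2-primary part are the
same over `K(√d : d ∈ S)` and over `ℚ(√d : d ∈ S)`.
-/

set_option autoImplicit false
set_option linter.unusedSectionVars false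

open Finset NumberField IsDedekindDomain WeierstrassCurve

namespace Pool.Agent.V11207.SF

open scoped Classical

open Pool.Agent.TH841.NF (Sc)
open Pool.Agent.TH841.NF.D (Sha rk)
open Pool.Agent.Y682 (gc)
open Pool.Agent.Y682.XD (mq mq_empty mq_insert)
open Pool.Agent.V11291.RG (enum mq_eq ind_of Inde)
open Pool.Agent.Y723.QT (Kl kl_of_ker)

lemma rk_q (E : WeierstrassCurve ℚ) :
    Pool.Agent.TH841.NF.D.rk E = Pool.Agent.TH841.SH.D.rk E := by
  have h : (Classical.decEq ℚ : DecidableEq ℚ) = instDecidableEqRat := Subsingleton.elim _ _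
  unfold Pool.Agent.TH841.NF.D.rk Pool.Agent.TH841.SH.D.rk
  rw [h]

lemma nf_mq {S : Finset ℤ} (h0 : ∀ d ∈ S, d ≠ 0) : NumberField (mq S) := by
  have hfd : FiniteDimensional ℚ (mq S) := (Pool.Agent.V11291.RG.rr_sub S h0).1
  exact { to_charZero := inferInstance, to_finiteDimensional := hfd }

lemma nf_sup (F K : IntermediateField ℚ ℂ) [NumberField F] [NumberField K] :
    NumberField (F ⊔ K : IntermediateField ℚ ℂ) := by
  have hfd : FiniteDimensional ℚ (F ⊔ K : IntermediateField ℚ ℂ) :=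
    IntermediateField.finiteDimensional_sup _ _
  exact { to_charZero := inferInstance, to_finiteDimensional := hfd }

lemma deg_mq {S : Finset ℤ} (h0 : ∀ d ∈ S, d ≠ 0) (hI : Inde S) (K F : IntermediateField ℚ ℂ)
    [NumberField K] (hodd : Odd (Module.finrank ℚ K)) (hF : F = mq S ⊔ K) :
    Module.finrank ℚ F = 2 ^ S.card * Module.finrank ℚ K := by
  obtain ⟨d, hinj, himg⟩ := enum S
  have hN : NumberField (mq S) := nf_mq h0
  have hdS : ∀ i, d i ∈ S := fun i => by
    have h := mem_image_of_mem d (mem_univ i)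
    rwa [himg] at h
  exact Pool.Agent.V11291.JH.finrank_sup d (fun i => h0 _ (hdS i)) (ind_of hinj himg hI) (mq S) K F
    hodd (mq_eq himg) hF

lemma not_mem_mq {S : Finset ℤ} {d : ℤ} (h0 : ∀ e ∈ insert d S, e ≠ 0) (hI : Inde (insert d S))
    (hd : d ∉ S) (K : IntermediateField ℚ ℂ) [NumberField K] (hodd : Odd (Module.finrank ℚ K))
    {z : ℂ} (hz : z ^ 2 = (d : ℂ)) : z ∉ (mq S ⊔ K : IntermediateField ℚ ℂ) := by
  intro hzm
  have hins := mq_insert S d hz
  have e1 : (mq (insert d S) ⊔ K : IntermediateField ℚ ℂ) = mq S ⊔ K := by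
    rw [hins, sup_right_comm]
    exact sup_eq_left.2 ((IntermediateField.adjoin_simple_le_iff).2 hzm)
  have h1 := deg_mq h0 hI K (mq (insert d S) ⊔ K) hodd rfl
  have h2 := deg_mq (S := S) (fun e he => h0 e (mem_insert_of_mem he))
    (fun T hT => hI T (hT.trans (subset_insert d S))) K (mq S ⊔ K) hodd rfl
  rw [e1, h2, card_insert_of_notMem hd, pow_succ] at h1
  have h3 : 0 < 2 ^ S.card * Module.finrank ℚ K := Nat.mul_pos (by positivity)
    (Nat.pos_of_ne_zero fun h => by rw [h] at hodd; exact absurd hodd (by decide))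
  nlinarith

/-- the rank in a quadratic extension -/
lemma rk_quad (F F' : IntermediateField ℚ ℂ) [NumberField F] [NumberField F'] {z : ℂ} {d : ℤ}
    (hd : d ≠ 0) (hz : z ∉ F) (hz2 : z ^ 2 = (d : ℂ))
    (hF' : F' = F ⊔ IntermediateField.adjoin ℚ {z}) {A B : ℤ} (hB : B ≠ 0)
    (hD : A ^ 2 - 4 * B ≠ 0) : rk (gc A B F') = rk (gc A B F) + rk (gc (A * d) (B * d ^ 2) F) := by
  have P := Pool.Agent.Y682.YS.partsD
  have hle : F ≤ F' := by rw [hF']; exact le_sup_left
  have hzF' : z ∈ F' := by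
    rw [hF']
    exact (le_sup_right : _ ≤ F ⊔ IntermediateField.adjoin ℚ {z})
      (IntermediateField.mem_adjoin_simple_self ℚ z)
  let _ : Algebra F F' := (IntermediateField.inclusion hle).toRingHom.toAlgebra
  exact P.qf F F' A B d (⟨z, hzF'⟩ : F') hB hD hd (Subtype.ext (by
      show z ^ 2 = _
      rw [hz2]
      rfl)) (P.deg2 F F' z d hz hz2 hle hF') (by
      intro x hx
      apply hz
      have h4 := congrArg (fun y : F' => (y : ℂ)) hx
      have h5 : (x : ℂ) = z := h4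
      rw [← h5]
      exact x.2)

lemma disc_tw {A B d : ℤ} (hd : d ≠ 0) (hD : A ^ 2 - 4 * B ≠ 0) :
    (A * d) ^ 2 - 4 * (B * d ^ 2) ≠ 0 := by
  have e1 : (A * d) ^ 2 - 4 * (B * d ^ 2) = (A ^ 2 - 4 * B) * d ^ 2 := by ring
  rw [e1]
  exact mul_ne_zero hD (pow_ne_zero 2 hd)

/-- **the ranks** -/
theorem rank_mq (K : IntermediateField ℚ ℂ) [NumberField K] (hodd : Odd (Module.finrank ℚ K))
    (S : Finset ℤ) : (∀ d ∈ S, d ≠ 0) → Inde S → ∀ A B : ℤ, B ≠ 0 → A ^ 2 - 4 * B ≠ 0 →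
    (∀ T ⊆ S, rk (gc (A * ∏ d ∈ T, d) (B * (∏ d ∈ T, d) ^ 2) K) =
      rk (gc (A * ∏ d ∈ T, d) (B * (∏ d ∈ T, d) ^ 2) ℚ)) →
    ∀ (L L₀ : IntermediateField ℚ ℂ) [NumberField L] [NumberField L₀], L = mq S ⊔ K → L₀ = mq S →
      rk (gc A B L) = rk (gc A B L₀) := by
  have P := Pool.Agent.Y682.YS.partsD
  induction S using Finset.induction_on with
  | empty =>
    intro _ _ A B hB hD h L L₀ _ _ hL hL₀
    rw [mq_empty, bot_sup_eq] at hL
    rw [mq_empty] at hL₀
    subst hL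
    subst hL₀
    have h1 := h ∅ (Finset.Subset.refl _)
    rw [prod_empty, mul_one, one_pow, mul_one] at h1
    rw [h1]
    exact P.rke ℚ (⊥ : IntermediateField ℚ ℂ) (IntermediateField.botEquiv ℚ ℂ).symm.toRingEquiv A B
      hB hD
  | insert d S hdS ih =>
    intro h0 hI A B hB hD h L L₀ _ _ hL hL₀
    have h0S : ∀ e ∈ S, e ≠ 0 := fun e he => h0 e (mem_insert_of_mem he)
    have hIS : Inde S := fun T hT => hI T (hT.trans (subset_insert d S))
    have hd0 : d ≠ 0 := h0 d (mem_insert_self d S)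
    obtain ⟨z, hz⟩ : ∃ z : ℂ, z ^ 2 = (d : ℂ) := IsAlgClosed.exists_pow_nat_eq _ (by norm_num)
    have hins := mq_insert S d hz
    have hN : NumberField (mq S) := nf_mq h0S
    have hN' : NumberField (mq S ⊔ K : IntermediateField ℚ ℂ) := nf_sup _ _
    have hz1 : z ∉ (mq S ⊔ K : IntermediateField ℚ ℂ) := not_mem_mq h0 hI hdS K hodd hz
    have hz2 : z ∉ mq S := fun hh => hz1 ((le_sup_left : mq S ≤ mq S ⊔ K) hh)
    have hL' : L = (mq S ⊔ K) ⊔ IntermediateField.adjoin ℚ {z} := by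
      rw [hL, hins, sup_right_comm]
    have e1 := rk_quad (mq S ⊔ K) L hd0 hz1 hz hL' hB hD
    have e2 := rk_quad (mq S) L₀ hd0 hz2 hz (hL₀.trans hins) hB hD
    rw [e1, e2]
    have g1 := ih h0S hIS A B hB hD (fun T hT => h T (hT.trans (subset_insert d S)))
      (mq S ⊔ K) (mq S) rfl rfl
    have g2 := ih h0S hIS (A * d) (B * d ^ 2) (mul_ne_zero hB (pow_ne_zero 2 hd0)) (disc_tw hd0 hD)
      (fun T hT => by
        have h1 := h (insert d T) (insert_subset_insert d hT)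
        rw [prod_insert fun h' => hdS (hT h')] at h1
        have e3 : A * d * ∏ x ∈ T, x = A * (d * ∏ x ∈ T, x) := by ring
        have e4 : B * d ^ 2 * (∏ x ∈ T, x) ^ 2 = B * (d * ∏ x ∈ T, x) ^ 2 := by ring
        rw [e3, e4]
        exact h1) (mq S ⊔ K) (mq S) rfl rfl
    rw [g1, g2]

/-- **from `K` to the composite** -/
theorem sha_up (K L : IntermediateField ℚ ℂ) [NumberField K] [NumberField L] (K₁ : Type)
    [Field K₁] [NumberField K₁] (eK : K ≃+* K₁) (S : Finset ℤ)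
    (h0 : ∀ d ∈ S, d ≠ 0) (hL : L = mq S ⊔ K) (A B : ℤ) (m : ℕ)
    (h : ∀ T ⊆ S, Kl (Sha (gc (A * ∏ d ∈ T, d) (B * (∏ d ∈ T, d) ^ 2) K₁)) m) :
    Kl (Sha (gc A B L)) (S.card + m) := by
  obtain ⟨d, hinj, himg⟩ := enum S
  have hdS : ∀ i, d i ∈ S := fun i => by
    have h := mem_image_of_mem d (mem_univ i)
    rwa [himg] at h
  have hKL : K ≤ L := by rw [hL]; exact le_sup_right
  have hSL : mq S ≤ L := by rw [hL]; exact le_sup_left
  let φ : K₁ →+* L := ((IntermediateField.inclusion hKL).toRingHom).comp (eK.symm : K₁ →+* K)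
  let _ : Algebra K₁ L := φ.toAlgebra
  have hz : ∀ i, ∃ z : ℂ, z ^ 2 = (d i : ℂ) := fun i =>
    IsAlgClosed.exists_pow_nat_eq _ (by norm_num)
  choose z hz using hz
  have hmem : ∀ i, z i ∈ L := fun i => by
    apply hSL
    exact IntermediateField.subset_adjoin ℚ _ ⟨d i, hdS i, hz i⟩
  have hx : ∀ i, (fun i => (⟨z i, hmem i⟩ : L)) i ^ 2 = ((d i : ℤ) : L) := by
    intro i
    apply Subtype.ext
    show z i ^ 2 = ((d i : L) : ℂ)
    rw [hz i]
    exact (map_intCast (algebraMap L ℂ) (d i)).symm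
  have hgen : ∀ R : Subfield L, (∀ k : K₁, algebraMap K₁ L k ∈ R) →
      (∀ i, (fun i => (⟨z i, hmem i⟩ : L)) i ∈ R) → R = ⊤ := by
    intro R hR1 hR2
    let S' : IntermediateField ℚ ℂ := Subfield.toIntermediateField
      (R.map (L.val : L →+* ℂ)) (fun r => by
        refine ⟨algebraMap ℚ L r, ?_, ?_⟩
        · exact SubfieldClass.ratCast_mem R r
        · rfl)
    have hle : L ≤ S' := by
      rw [hL]
      refine sup_le ?_ ?_
      · unfold mq
        rw [IntermediateField.adjoin_le_iff]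
        rintro w ⟨e, he, hw⟩
        rw [← himg] at he
        obtain ⟨i, -, rfl⟩ := mem_image.1 he
        have h2 : z i ∈ S' := ⟨⟨z i, hmem i⟩, hR2 i, rfl⟩
        rcases sq_eq_sq_iff_eq_or_eq_neg.1 (hw.trans (hz i).symm) with h | h
        · rw [h]
          exact h2
        · rw [h]
          exact neg_mem h2
      · intro w hw
        refine ⟨φ (eK ⟨w, hw⟩), hR1 _, ?_⟩
        show ((IntermediateField.inclusion hKL (eK.symm (eK ⟨w, hw⟩)) : L) : ℂ) = w
        rw [RingEquiv.symm_apply_apply]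
        rfl
    rw [eq_top_iff]
    intro y _
    obtain ⟨s, hs, hsy⟩ := hle y.2
    have h3 : s = y := Subtype.ext hsy
    rw [← h3]
    exact hs
  have hgal : IsGalois K₁ L := galois1 d (fun i => (⟨z i, hmem i⟩ : L)) hx hgen
  have hT : ∀ T : Finset (Fin S.card),
      Kl (Sha (gc (A * ∏ i ∈ T, d i) (B * (∏ i ∈ T, d i) ^ 2) K₁)) m := by
    intro T
    have h1 := h (T.image d) (by
      intro x hx
      obtain ⟨i, -, rfl⟩ := mem_image.1 hx
      exact hdS i)
    rwa [Finset.prod_image fun i _ j _ h => hinj h] at h1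
  intro k y hy
  exact quad' (K := K₁) (F := L) d (fun i => (⟨z i, hmem i⟩ : L)) (fun i => h0 _ (hdS i)) hx hgen A B
    m (fun T k y hy => hT T k y hy) k y hy

/-- a twist over a field with the square root -/
theorem tw_iso {F : Type} [Field F] [NumberField F] {A B t : ℤ} (ht : t ≠ 0) (hB : B ≠ 0)
    (hD : A ^ 2 - 4 * B ≠ 0) {u : F} (hu : u ^ 2 = (t : F)) :
    Nonempty (Sha (gc (A * t) (B * t ^ 2) F) ≃+ Sha (gc A B F)) := by
  have ht' : (t : F) ≠ 0 := by exact_mod_cast ht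
  have hu0 : u ≠ 0 := by
    rintro rfl
    rw [zero_pow two_ne_zero] at hu
    exact ht' hu.symm
  have hdisc : (gc (A * t) (B * t ^ 2) F).Δ ≠ 0 := by
    have e : (gc (A * t) (B * t ^ 2) F).Δ = ((16 * (B * t ^ 2) ^ 2 *
        ((A * t) ^ 2 - 4 * (B * t ^ 2)) : ℤ) : F) := by
      simp only [gc, WeierstrassCurve.Δ, WeierstrassCurve.b₂, WeierstrassCurve.b₄,
        WeierstrassCurve.b₆, WeierstrassCurve.b₈]
      push_cast
      ring
    rw [e]
    have h1 : (16 * (B * t ^ 2) ^ 2 * ((A * t) ^ 2 - 4 * (B * t ^ 2)) : ℤ) ≠ 0 :=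
      mul_ne_zero (mul_ne_zero (by norm_num) (pow_ne_zero 2 (mul_ne_zero hB (pow_ne_zero 2 ht))))
        (disc_tw ht hD)
    exact_mod_cast h1
  have hC : (⟨Units.mk0 u hu0, 0, 0, 0⟩ : VariableChange F) • gc (A * t) (B * t ^ 2) F =
      gc A B F := by
    have hu4 : u ^ 4 = (t : F) ^ 2 := by
      rw [← hu]
      ring
    ext
    · simp [gc, WeierstrassCurve.variableChange_def]
    · simp only [gc, WeierstrassCurve.variableChange_def, Units.val_inv_eq_inv_val, Units.val_mk0]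
      push_cast
      rw [← hu]
      field_simp
      ring
    · simp [gc, WeierstrassCurve.variableChange_def]
    · simp only [gc, WeierstrassCurve.variableChange_def, Units.val_inv_eq_inv_val, Units.val_mk0]
      push_cast
      rw [← hu]
      field_simp
      ring
    · simp [gc, WeierstrassCurve.variableChange_def]
  exact (Pool.Agent.Y655.XT.s_shavc F _ _ _ hdisc hC).2

/-- **from a field with the square root to `ℚ`** -/
theorem sha_down {F : Type} [Field F] [NumberField F] {A B t : ℤ} (ht : t ≠ 0) (hB : B ≠ 0)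
    (hD : A ^ 2 - 4 * B ≠ 0) {u : F} (hu : u ^ 2 = (t : F)) {n : ℕ} (h : Kl (Sha (gc A B F)) n) :
    ∃ m, Kl (Pool.Agent.TH841.SH.D.Sha (gc (A * t) (B * t ^ 2) ℚ)) m := by
  obtain ⟨e⟩ := tw_iso ht hB hD hu
  have h1 : Kl (Sha (gc (A * t) (B * t ^ 2) F)) n := (kl_congr e).2 h
  have hW : Sc (algebraMap ℚ F) 1 (gc (A * t) (B * t ^ 2) ℚ) (gc (A * t) (B * t ^ 2) F) := by
    refine ⟨one_ne_zero, ?_, ?_, ?_, ?_, ?_⟩ <;> simp [gc]
  obtain ⟨e'⟩ := Pool.Agent.Y723.QT.exists_e F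
  refine ⟨_, kl_of_ker (θ := Pool.Agent.Y682.rsS hW e')
    (Module.finrank_pos (R := ℚ) (M := F)).ne' (fun x hx => ?_) h1⟩
  rw [← Pool.Agent.Y682.coS_rsS hW e' x, hx, map_zero]

/-- the exponents of groups with isomorphic 2-primary parts -/
lemma kl_prim {G H : Type} [AddCommGroup G] [AddCommGroup H]
    (e : AddCommGroup.primaryComponent G 2 ≃+ AddCommGroup.primaryComponent H 2) {n : ℕ}
    (h : Kl H n) : Kl G n := by
  intro k x hx
  obtain ⟨y, hy⟩ : ∃ y : AddCommGroup.primaryComponent G 2, y = ⟨x, k, hx⟩ := ⟨_, rfl⟩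
  have h1 : 2 ^ k • e y = 0 := by
    rw [← map_nsmul]
    have h2 : 2 ^ k • y = 0 := by
      rw [hy]
      exact Subtype.ext hx
    rw [h2, map_zero]
  have h3 : 2 ^ n • (e y : H) = 0 := h k _ (by
    have := congrArg (fun z : AddCommGroup.primaryComponent H 2 => (z : H)) h1
    exact this)
  have h4 : 2 ^ n • e y = 0 := Subtype.ext h3
  rw [← map_nsmul] at h4
  have h5 : 2 ^ n • y = 0 := e.injective (by rw [h4, map_zero])
  have h6 := congrArg (fun z : AddCommGroup.primaryComponent G 2 => (z : G)) h5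
  rw [hy] at h6
  exact h6

lemma fin_congr {G H : Type} [AddCommGroup G] [AddCommGroup H]
    (e : AddCommGroup.primaryComponent G 2 ≃+ AddCommGroup.primaryComponent H 2) :
    Finite (AddCommGroup.primaryComponent G 2) ↔ Finite (AddCommGroup.primaryComponent H 2) :=
  e.toEquiv.finite_iff

/-- **Stability over the composites.** -/
theorem mq_stable (K : IntermediateField ℚ ℂ) [NumberField K] (hodd : Odd (Module.finrank ℚ K))
    (K₁ : Type) [Field K₁] [NumberField K₁] (eK : K ≃+* K₁) (S : Finset ℤ)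
    (h0 : ∀ d ∈ S, d ≠ 0) (hI : Inde S) (A B : ℤ) (hB : B ≠ 0) (hD : A ^ 2 - 4 * B ≠ 0)
    (h : ∀ T ⊆ S, Nonempty (AddCommGroup.primaryComponent
          (Sha (gc (A * ∏ d ∈ T, d) (B * (∏ d ∈ T, d) ^ 2) K₁)) 2 ≃+
        AddCommGroup.primaryComponent
          (Pool.Agent.TH841.SH.D.Sha (gc (A * ∏ d ∈ T, d) (B * (∏ d ∈ T, d) ^ 2) ℚ)) 2) ∧
      rk (gc (A * ∏ d ∈ T, d) (B * (∏ d ∈ T, d) ^ 2) K₁) =
        Pool.Agent.TH841.SH.D.rk (gc (A * ∏ d ∈ T, d) (B * (∏ d ∈ T, d) ^ 2) ℚ))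
    (L L₀ : IntermediateField ℚ ℂ) [NumberField L] [NumberField L₀] (hL : L = mq S ⊔ K)
    (hL₀ : L₀ = mq S) :
    Module.finrank ℚ L₀ = 2 ^ S.card ∧
    Module.finrank ℚ L = 2 ^ S.card * Module.finrank ℚ K ∧
    rk (gc A B L) = rk (gc A B L₀) ∧
    (Finite (AddCommGroup.primaryComponent (Sha (gc A B L)) 2) ↔
      ∀ T ⊆ S, Finite (AddCommGroup.primaryComponent
        (Pool.Agent.TH841.SH.D.Sha (gc (A * ∏ d ∈ T, d) (B * (∏ d ∈ T, d) ^ 2) ℚ)) 2)) ∧
    (Finite (AddCommGroup.primaryComponent (Sha (gc A B L₀)) 2) ↔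
      ∀ T ⊆ S, Finite (AddCommGroup.primaryComponent
        (Pool.Agent.TH841.SH.D.Sha (gc (A * ∏ d ∈ T, d) (B * (∏ d ∈ T, d) ^ 2) ℚ)) 2)) ∧
    ∀ n, (∀ T ⊆ S, Kl (Pool.Agent.TH841.SH.D.Sha
      (gc (A * ∏ d ∈ T, d) (B * (∏ d ∈ T, d) ^ 2) ℚ)) n) → Kl (Sha (gc A B L)) (S.card + n) := by
  have hbot : NumberField (⊥ : IntermediateField ℚ ℂ) :=
    { to_charZero := inferInstance, to_finiteDimensional := inferInstance }
  have ht : ∀ T ⊆ S, ∏ d ∈ T, d ≠ 0 := fun T hT => prod_ne_zero_iff.2 fun d hd => h0 d (hT hd)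
  have hle : L₀ ≤ L := by rw [hL, hL₀]; exact le_sup_left
  -- from `L` to `L₀`
  have hLL : ∀ n, Kl (Sha (gc A B L)) n → ∃ m, Kl (Sha (gc A B L₀)) m := by
    intro n hn
    let _ : Algebra L₀ L := (IntermediateField.inclusion hle).toRingHom.toAlgebra
    have hS0 : Sc (RingHom.id L) 1 (gc A B L) ((gc A B L₀).baseChange L) := by
      refine ⟨one_ne_zero, ?_, ?_, ?_, ?_, ?_⟩
      · change algebraMap L₀ L 0 = (0 : L) * 1
        rw [map_zero, zero_mul]
      · change algebraMap L₀ L ((A : ℤ) : L₀) = ((A : ℤ) : L) * 1 ^ 2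
        rw [map_intCast, one_pow, mul_one]
      · change algebraMap L₀ L 0 = (0 : L) * 1 ^ 3
        rw [map_zero, zero_mul]
      · change algebraMap L₀ L ((B : ℤ) : L₀) = ((B : ℤ) : L) * 1 ^ 4
        rw [map_intCast, one_pow, mul_one]
      · change algebraMap L₀ L 0 = (0 : L) * 1 ^ 6
        rw [map_zero, zero_mul]
    exact kl_back hS0 hn
  -- from `L₀` to the twists over `ℚ`
  have hdown : ∀ n, Kl (Sha (gc A B L₀)) n → ∀ T ⊆ S,
      Finite (AddCommGroup.primaryComponent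
        (Pool.Agent.TH841.SH.D.Sha (gc (A * ∏ d ∈ T, d) (B * (∏ d ∈ T, d) ^ 2) ℚ)) 2) := by
    intro n hn T hT
    -- the square root of the product
    have hz : ∀ d : ℤ, ∃ z : ℂ, z ^ 2 = (d : ℂ) := fun d =>
      IsAlgClosed.exists_pow_nat_eq _ (by norm_num)
    choose z hz using hz
    have hu : ∏ d ∈ T, z d ∈ L₀ := by
      rw [hL₀]
      refine prod_mem fun d hd => ?_
      exact IntermediateField.subset_adjoin ℚ _ ⟨d, hT hd, hz d⟩
    obtain ⟨m, hm⟩ := sha_down (F := L₀) (A := A) (B := B) (t := ∏ d ∈ T, d) (ht T hT) hB hD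
      (u := (⟨∏ d ∈ T, z d, hu⟩ : L₀)) (by
        apply Subtype.ext
        show (∏ d ∈ T, z d) ^ 2 = (((∏ d ∈ T, d : ℤ) : L₀) : ℂ)
        rw [← prod_pow, prod_congr rfl fun d _ => hz d]
        push_cast
        rfl) hn
    obtain ⟨⟨e⟩, -⟩ := h T hT
    have h1 := kl_prim e hm
    have h2 := (fin_iff (two_fin (mul_ne_zero hB (pow_ne_zero 2 (ht T hT)))
      (disc_tw (ht T hT) hD) K₁)).2 ⟨m, h1⟩
    exact (fin_congr e).1 h2
  -- from the twists over `ℚ` to `L`
  have hup : (∀ T ⊆ S, Finite (AddCommGroup.primaryComponent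
      (Pool.Agent.TH841.SH.D.Sha (gc (A * ∏ d ∈ T, d) (B * (∏ d ∈ T, d) ^ 2) ℚ)) 2)) →
      ∃ m, Kl (Sha (gc A B L)) m := by
    intro hf
    have h1 : ∀ T ∈ S.powerset, ∃ m,
        Kl (Sha (gc (A * ∏ d ∈ T, d) (B * (∏ d ∈ T, d) ^ 2) K₁)) m := by
      intro T hT'
      have hT := mem_powerset.1 hT'
      obtain ⟨⟨e⟩, -⟩ := h T hT
      exact (fin_iff (two_fin (mul_ne_zero hB (pow_ne_zero 2 (ht T hT)))
        (disc_tw (ht T hT) hD) K₁)).1 ((fin_congr e).2 (hf T hT))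
    choose! m hm using h1
    refine ⟨_, sha_up K L K₁ eK S h0 hL A B (S.powerset.sup m) fun T hT k y hy => ?_⟩
    exact Pool.Agent.Y723.QT.pow_kill (Finset.le_sup (mem_powerset.2 hT))
      (hm T (mem_powerset.2 hT) k y hy)
  refine ⟨?_, deg_mq h0 hI K L hodd hL, ?_, ?_, ?_, fun n hn => ?_⟩
  · have h2 := deg_mq h0 hI (⊥ : IntermediateField ℚ ℂ) L₀ (by
      rw [IntermediateField.finrank_bot]
      exact odd_one) (by rw [sup_bot_eq]; exact hL₀)
    rw [IntermediateField.finrank_bot, mul_one] at h2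
    exact h2
  · refine rank_mq K hodd S h0 hI A B hB hD (fun T hT => ?_) L L₀ hL hL₀
    rw [Pool.Agent.Y682.YS.partsD.rke K K₁ eK _ _ (mul_ne_zero hB (pow_ne_zero 2 (ht T hT)))
      (disc_tw (ht T hT) hD), (h T hT).2, rk_q]
  · rw [fin_iff (two_fin hB hD L)]
    constructor
    · rintro ⟨n, hn⟩
      obtain ⟨m, hm⟩ := hLL n hn
      exact hdown m hm
    · exact hup
  · rw [fin_iff (two_fin hB hD L₀)]
    constructor
    · rintro ⟨n, hn⟩
      exact hdown n hn
    · intro hf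
      obtain ⟨m, hm⟩ := hup hf
      exact hLL m hm
  · refine sha_up K L K₁ eK S h0 hL A B n fun T hT => ?_
    obtain ⟨⟨e⟩, -⟩ := h T hT
    exact kl_prim e (hn T hT)

end Pool.Agent.V11207.SF
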