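import Mathlib
import Pool.Agent.V11207.SF.MQS
import Pool.Agent.Results.MP_78d38b_nt.TwoTorsionStability

/-!
# The rank and the finiteness of `Ш[2^∞]` over multiquadratic extensions of odd degree fields, and of
# all the layers of the cyclotomic `ℤ₃`-extension

`E : y² = x³ + A x² + B x` is a curve over `ℚ` with a rational point of order two and with opposite
types at `∞` and at `2` (the condition `Pair` of the result `TwoTorsionStability` of problem
`MP_78d38b_nt`; there it is shown that the rank and `Ш[2^∞]` do not change from `ℚ` to certain fields of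
odd degree), and `S` is a finite set of odd integers, independent modulo squares (positive ones, unless
`B < 0` or `A² < 4 B`).

Let `K` be one of the fields of odd degree of that result, for instance any layer of the cyclotomic
`ℤ₃`-extension of `ℚ`, under the conditions at the prime divisors of `B (A² - 4 B) ∏ S`.  Then for
`L = K(√d : d ∈ S)` and `L₀ = ℚ(√d : d ∈ S)`, the ranks of `E(L)` and `E(L₀)` are equal, and the 2-primary
part of `Ш(E/L)` is finite if and only if the 2-primary part of `Ш(E/L₀)` is finite, if and only if this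
is so for the `2^#S` twists of `E` over `ℚ` by the products of elements of `S`; the exponent of the
2-primary part of `Ш(E/L)` is bounded in terms of those of these twists only.
-/

set_option autoImplicit false

namespace Pool.Agent.V11207.SF.MS

open NumberField IsDedekindDomain

open Pool.Agent.Y682 (NCl gc)

open Pool.Agent.Results.MP_78d38b_nt.TwoTorsionStability (Pair Exc AtBad Stable)

/-- The subfield of `ℂ` generated by the square roots of the elements of `S`. -/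
noncomputable def multiquadratic (S : Finset ℤ) : IntermediateField ℚ ℂ :=
  IntermediateField.adjoin ℚ {z : ℂ | ∃ d ∈ S, z ^ 2 = (d : ℂ)}

/-- The subfield of `ℂ` generated by the `q`-th roots of unity. -/
noncomputable def cyclotomic (q : ℕ) : IntermediateField ℚ ℂ :=
  IntermediateField.adjoin ℚ {z : ℂ | z ^ q = 1}

/-- The curve `y² = x³ + A x² + B x` over the field `F`. -/
def curve (A B : ℤ) (F : Type) [Field F] : WeierstrassCurve F := ⟨0, A, 0, B, 0⟩

/-- `4 ∣ A`, or `A` is odd and `B = 0, 1 mod 4`, or `A = 2 mod 4` and `(A/2)² - B = 0, 2, 4, 6 mod 16`: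
then no twist of the curve by an odd integer is exceptional at `2` (`Exc`). -/
def Plain (A B : ℤ) : Prop := 4 ∣ A ∨ (¬ 2 ∣ A ∧ B % 4 ≤ 1) ∨
  (A % 4 = 2 ∧ 2 ∣ (A / 2) ^ 2 - B ∧ ((A / 2) ^ 2 - B) % 16 < 8)

/-- `S` is a finite set of odd integers, independent modulo squares, and positive unless `B < 0` or
`A² < 4 B`. -/
def IsBase (A B : ℤ) (S : Finset ℤ) : Prop :=
  (∀ d ∈ S, ¬ 2 ∣ d) ∧ ((∀ d ∈ S, 0 < d) ∨ B < 0 ∨ A ^ 2 < 4 * B) ∧
    ∀ T ⊆ S, T.Nonempty → ¬ IsSquare (∏ d ∈ T, d)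

/-- For all the products `t` of elements of `S`, the 2-primary part of `Ш` of the twist
`y² = x³ + A t x² + B t² x` over `ℚ` is finite. -/
def FiniteTwists (A B : ℤ) (S : Finset ℤ) : Prop :=
  ∀ T ⊆ S, Finite (AddCommGroup.primaryComponent (Pool.Agent.TH841.SH.D.Sha
    (curve (A * ∏ d ∈ T, d) (B * (∏ d ∈ T, d) ^ 2) ℚ)) 2)

/-- The 2-primary part of the group `G` is killed by `2^n`. -/
def Killed (G : Type) [AddCommGroup G] (n : ℕ) : Prop :=
  ∀ (k : ℕ) (x : G), 2 ^ k • x = 0 → 2 ^ n • x = 0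

/-- For `L = K(√d : d ∈ S)` and `L₀ = ℚ(√d : d ∈ S)`: the degrees are `2^#S [K : ℚ]` and `2^#S`, the
ranks of the curve over `L` and `L₀` are equal, the 2-primary part of `Ш` over `L` is finite if and
only if this is true for the `2^#S` twists over `ℚ`, if and only if it is true over `L₀`, and if the
2-primary parts for the twists over `ℚ` are killed by `2^n`, then the one over `L` is killed by
`2^(n + #S)`. -/
def StableOver (A B : ℤ) (S : Finset ℤ) (K : IntermediateField ℚ ℂ) : Prop :=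
  ∀ (L L₀ : IntermediateField ℚ ℂ) [NumberField L] [NumberField L₀],
    L = multiquadratic S ⊔ K → L₀ = multiquadratic S →
    Module.finrank ℚ L₀ = 2 ^ S.card ∧
    Module.finrank ℚ L = 2 ^ S.card * Module.finrank ℚ K ∧
    Pool.Agent.TH841.NF.D.rk (curve A B L) = Pool.Agent.TH841.NF.D.rk (curve A B L₀) ∧
    (Finite (AddCommGroup.primaryComponent
      (Pool.Agent.TH841.NF.D.Sha (curve A B L)) 2) ↔ FiniteTwists A B S) ∧
    (Finite (AddCommGroup.primaryComponent
      (Pool.Agent.TH841.NF.D.Sha (curve A B L₀)) 2) ↔ FiniteTwists A B S) ∧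
    ∀ n, (∀ T ⊆ S, Killed (Pool.Agent.TH841.SH.D.Sha
      (curve (A * ∏ d ∈ T, d) (B * (∏ d ∈ T, d) ^ 2) ℚ)) n) →
        Killed (Pool.Agent.TH841.NF.D.Sha (curve A B L)) (S.card + n)

/-! ### Twists by odd integers -/

lemma odd_sq {t : ℤ} (ht : ¬ 2 ∣ t) : ∃ s : ℤ, t ^ 2 = 8 * s + 1 := by
  obtain ⟨k, hk⟩ : ∃ k, t = 2 * k + 1 := ⟨t / 2, by omega⟩
  obtain ⟨j, hj⟩ : ∃ j, k * (k + 1) = 2 * j := by
    have h := Int.even_mul_succ_self k
    obtain ⟨j, hj⟩ := h
    exact ⟨j, by linarith⟩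
  exact ⟨j, by rw [hk]; linear_combination 4 * hj⟩

lemma pair_tw {A B t : ℤ} (h : Pair A B) (ht : ¬ 2 ∣ t) (hs : 0 < t ∨ B < 0 ∨ A ^ 2 < 4 * B) :
    Pair (A * t) (B * t ^ 2) := by
  obtain ⟨hB, hD, hred, hty⟩ := h
  have ht0 : t ≠ 0 := by
    rintro rfl
    exact ht (dvd_zero 2)
  have ht2 : 0 < t ^ 2 := by positivity
  have hc2 : IsCoprime (2 : ℤ) t := (Int.prime_two.coprime_iff_not_dvd).2 ht
  have hdiv : ∀ (n : ℕ) (j : ℕ) (X : ℤ), (2 : ℤ) ^ n ∣ X * t ^ j ↔ (2 : ℤ) ^ n ∣ X := by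
    intro n j X
    constructor
    · intro h
      exact (IsCoprime.pow hc2 (m := n) (n := j)).dvd_of_dvd_mul_right h
    · exact fun h => h.mul_right _
  have h2 : (2 : ℤ) ∣ A * t ↔ (2 : ℤ) ∣ A := by simpa using hdiv 1 1 A
  have h4 : (4 : ℤ) ∣ A * t ↔ (4 : ℤ) ∣ A := by
    have := hdiv 2 1 A
    norm_num at this
    exact this
  have h16 : (16 : ℤ) ∣ B * t ^ 2 ↔ (16 : ℤ) ∣ B := by
    have := hdiv 4 2 B
    norm_num at this
    exact this
  refine ⟨mul_ne_zero hB ht2.ne', ?_, ?_, ?_⟩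
  · intro h
    apply hD
    have h1 : (A ^ 2 - 4 * B) * t ^ 2 = 0 := by linear_combination h
    rcases mul_eq_zero.1 h1 with h1 | h1
    · linarith
    · exact absurd h1 ht2.ne'
  · rw [h4, h16]
    exact hred
  · have e1 : 0 < B * t ^ 2 ↔ 0 < B := mul_pos_iff_of_pos_right ht2
    have e2 : (A * t) ^ 2 < 4 * (B * t ^ 2) ↔ A ^ 2 < 4 * B := by
      have e3 : (A * t) ^ 2 = A ^ 2 * t ^ 2 := by ring
      have e4 : 4 * (B * t ^ 2) = 4 * B * t ^ 2 := by ring
      rw [e3, e4]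
      exact mul_lt_mul_iff_left₀ ht2
    have hr : (¬ 2 ∣ A * t ∨ ¬ 4 ∣ (A * t / 2) ^ 2 - B * t ^ 2) ↔
        (¬ 2 ∣ A ∨ ¬ 4 ∣ (A / 2) ^ 2 - B) := by
      rw [h2]
      by_cases hA : 2 ∣ A
      · obtain ⟨a, rfl⟩ := hA
        have e5 : 2 * a * t / 2 = a * t := by
          rw [mul_assoc]
          exact Int.mul_ediv_cancel_left _ two_ne_zero
        have e6 : 2 * a / 2 = a := Int.mul_ediv_cancel_left _ two_ne_zero
        have e7 : (4 : ℤ) ∣ (a * t) ^ 2 - B * t ^ 2 ↔ (4 : ℤ) ∣ a ^ 2 - B := by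
          have e8 : (a * t) ^ 2 - B * t ^ 2 = (a ^ 2 - B) * t ^ 2 := by ring
          rw [e8]
          have := hdiv 2 2 (a ^ 2 - B)
          norm_num at this
          exact this
        rw [e5, e6, e7]
      · exact ⟨fun _ => Or.inl hA, fun _ => Or.inl hA⟩
    rw [hr, ← hty, e1, e2]
    rcases hs with hs | hs | hs
    · have e9 : A * t < 0 ↔ A < 0 := by
        constructor
        · intro h
          by_contra h'
          have := mul_nonneg (not_lt.1 h') hs.le
          linarith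
        · intro h
          exact mul_neg_of_neg_of_pos h hs
      rw [e9]
    · exact ⟨fun h => absurd h.1 (by linarith), fun h => absurd h.1 (by linarith)⟩
    · exact ⟨fun h => ⟨h.1, Or.inr hs⟩, fun h => ⟨h.1, Or.inr hs⟩⟩

lemma exc_tw {A B t : ℤ} (h : Plain A B) (ht : ¬ 2 ∣ t) : ¬ Exc (A * t) (B * t ^ 2) := by
  obtain ⟨s, hs⟩ := odd_sq ht
  obtain ⟨k, hk⟩ : ∃ k, t = 2 * k + 1 := ⟨t / 2, by omega⟩
  rcases h with ⟨a, rfl⟩ | ⟨h1, h2⟩ | ⟨h1, h2, h3⟩
  · have e1 : 4 * a * t = 4 * (a * t) := by ring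
    rw [e1]
    rintro (⟨h, -⟩ | ⟨h, -⟩) <;> omega
  · have e1 : A * t = 2 * (A * k) + A := by rw [hk]; ring
    have e2 : B * t ^ 2 = 4 * (2 * (B * s)) + B := by rw [hs]; ring
    rintro (⟨-, h⟩ | ⟨h, -⟩)
    · rw [e2] at h
      omega
    · rw [e1] at h
      omega
  · obtain ⟨a, rfl⟩ : ∃ a, A = 2 * a := ⟨A / 2, by omega⟩
    have e5 : 2 * a * t / 2 = a * t := by
      rw [mul_assoc]
      exact Int.mul_ediv_cancel_left _ two_ne_zero
    have e6 : 2 * a / 2 = a := Int.mul_ediv_cancel_left _ two_ne_zero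
    rw [e6] at h2 h3
    obtain ⟨x, hx⟩ := h2
    rintro (⟨h, -⟩ | ⟨-, h⟩)
    · have e1 : 2 * a * t = 2 * (a * t) := by ring
      rw [e1] at h
      omega
    · rw [e5] at h
      have e7 : (a * t) ^ 2 - B * t ^ 2 = 16 * (x * s) + (a ^ 2 - B) := by
        have e8 : (a * t) ^ 2 - B * t ^ 2 = (a ^ 2 - B) * t ^ 2 := by ring
        rw [e8, hs, hx]
        ring
      rw [e7] at h
      omega

lemma prod_odd {T : Finset ℤ} (h : ∀ d ∈ T, ¬ 2 ∣ d) : ¬ (2 : ℤ) ∣ ∏ d ∈ T, d := by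
  intro hd
  obtain ⟨d, hd1, hd2⟩ := Int.prime_two.exists_mem_finset_dvd hd
  exact h d hd1 hd2

lemma dvd_tw {A B : ℤ} {S T : Finset ℤ} (hT : T ⊆ S) {p : ℕ} (hp : p.Prime)
    (h : (p : ℤ) ∣ B * (∏ d ∈ T, d) ^ 2 *
      ((A * ∏ d ∈ T, d) ^ 2 - 4 * (B * (∏ d ∈ T, d) ^ 2))) :
    (p : ℤ) ∣ B * (A ^ 2 - 4 * B) * ∏ d ∈ S, d := by
  have hp' := Nat.prime_iff_prime_int.1 hp
  have e : B * (∏ d ∈ T, d) ^ 2 * ((A * ∏ d ∈ T, d) ^ 2 - 4 * (B * (∏ d ∈ T, d) ^ 2)) =
      B * (A ^ 2 - 4 * B) * (∏ d ∈ T, d) ^ 4 := by ring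
  rw [e] at h
  rcases hp'.dvd_or_dvd h with h | h
  · exact h.mul_right _
  · exact ((hp'.dvd_of_dvd_pow h).trans (Finset.prod_dvd_prod_of_subset T S _ hT)).mul_left _

lemma bad_tw {K : Type} [Field K] [NumberField K] {A B t : ℤ} (ht : t ≠ 0) {p : ℕ}
    (h : AtBad K A B p) : AtBad K (A * t) (B * t ^ 2) p := by
  rcases h with h | ⟨h1, d, α, β, h2, h3, h4, h5⟩
  · exact Or.inl h
  · refine Or.inr ⟨h1, d * t, α, β, mul_ne_zero h2 ht, ?_, ?_, h5⟩
    · rw [h3]
      ring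
    · rw [h4]
      ring

/-! ### The theorem -/

lemma base_tw {A B : ℤ} (h : Pair A B) {S : Finset ℤ} (hS : IsBase A B S) {T : Finset ℤ}
    (hT : T ⊆ S) : Pair (A * ∏ d ∈ T, d) (B * (∏ d ∈ T, d) ^ 2) := by
  refine pair_tw h (prod_odd fun d hd => hS.1 d (hT hd)) ?_
  rcases hS.2.1 with h1 | h1
  · exact Or.inl (Finset.prod_pos fun d hd => h1 d (hT hd))
  · exact Or.inr h1

/-- the criterion -/
lemma stable_over {A B : ℤ} (h : Pair A B) {S : Finset ℤ} (hS : IsBase A B S)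
    (K : IntermediateField ℚ ℂ) [NumberField K] (hodd : Odd (Module.finrank ℚ K)) (K₁ : Type)
    [Field K₁] [NumberField K₁] (e : K ≃+* K₁)
    (hst : ∀ T ⊆ S, Stable K₁ (A * ∏ d ∈ T, d) (B * (∏ d ∈ T, d) ^ 2)) : StableOver A B S K := by
  intro L L₀ _ _ hL hL₀
  have h0 : ∀ d ∈ S, d ≠ 0 := by
    rintro d hd rfl
    exact hS.1 0 hd (dvd_zero 2)
  have hD : A ^ 2 - 4 * B ≠ 0 := sub_ne_zero.2 h.2.1
  exact Pool.Agent.V11207.SF.mq_stable K hodd K₁ e S h0 hS.2.2 A B h.1 hD hst L L₀ hL hL₀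

/-- **Theorem.** `E : y² = x³ + A x² + B x` is a curve with opposite types at `∞` and at `2` (`Pair`), and
`S` is a finite set of odd integers, independent modulo squares, and positive unless `B < 0` or
`A² < 4 B`.
(1) Let `K` be a totally real number field in `ℂ`, of odd degree and odd narrow class number, in which `2`
is inert and such that the condition `AtBad` holds for the prime divisors of `B (A² - 4 B) ∏ S`.  If `3`
divides the degree, suppose moreover `Plain A B`.  Then the rank and the finiteness of `Ш(E)[2^∞]` are the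
same over `L = K(√d : d ∈ S)` and over `L₀ = ℚ(√d : d ∈ S)`, and `Ш(E)[2^∞]` is finite over these fields
if and only if it is finite for the `2^#S` twists of `E` over `ℚ` by the products of elements of `S`; if
`Ш[2^∞]` is killed by `2^n` for all of them, then `Ш(E/L)[2^∞]` is killed by `2^(n + #S)`.
(2) This holds for all the layers `K` of the cyclotomic `ℤ₃`-extension of `ℚ` if `Plain A B` and each
prime divisor of `B (A² - 4 B) ∏ S` is `3` or `2, 4, 5, 7` modulo `9`. -/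
theorem main (A B : ℤ) (h : Pair A B) (S : Finset ℤ) (hS : IsBase A B S) :
    (∀ (K : IntermediateField ℚ ℂ) [NumberField K] [IsTotallyReal K],
      Odd (Module.finrank ℚ K) → Odd (Nat.card (NCl K)) → (Ideal.span {(2 : 𝓞 K)}).IsPrime →
      (3 ∣ Module.finrank ℚ K → Plain A B) →
      (∀ p : ℕ, p.Prime → (p : ℤ) ∣ B * (A ^ 2 - 4 * B) * ∏ d ∈ S, d → AtBad K A B p) →
      StableOver A B S K) ∧
    (Plain A B →
      (∀ p : ℕ, p.Prime → (p : ℤ) ∣ B * (A ^ 2 - 4 * B) * ∏ d ∈ S, d →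
        p = 3 ∨ p % 9 = 2 ∨ p % 9 = 4 ∨ p % 9 = 5 ∨ p % 9 = 7) →
      ∀ (m : ℕ) (K : IntermediateField ℚ ℂ) [NumberField K], K ≤ cyclotomic (3 ^ (m + 1)) →
        Odd (Module.finrank ℚ K) → StableOver A B S K) := by
  have ht : ∀ T ⊆ S, ∏ d ∈ T, d ≠ 0 := fun T hT => Finset.prod_ne_zero_iff.2 fun d hd => by
    rintro rfl
    exact hS.1 0 (hT hd) (dvd_zero 2)
  have hodd' : ∀ T ⊆ S, ¬ (2 : ℤ) ∣ ∏ d ∈ T, d := fun T hT => prod_odd fun d hd => hS.1 d (hT hd)
  refine ⟨fun K _ _ hodd hcl h2 h3 hbad => ?_, fun hP hbad m K _ hK hodd => ?_⟩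
  · refine stable_over h hS K hodd K (RingEquiv.refl K) fun T hT => ?_
    exact (Pool.Agent.Results.MP_78d38b_nt.TwoTorsionStability.result _ _ (base_tw h hS hT)).1 K
      hodd hcl h2 (fun h' => exc_tw (h3 h') (hodd' T hT))
      fun p hp hpd => bad_tw (ht T hT) (hbad p hp (dvd_tw hT hp hpd))
  · obtain ⟨K₁, ⟨e⟩⟩ := Pool.Agent.Y682.YS.layer_iso m K hK
    have hz : NeZero (3 ^ (m + 1)) := ⟨pow_ne_zero _ (by norm_num)⟩
    have hc : IsCyclotomicExtension {3 ^ (m + 1)} ℚ (CyclotomicField (3 ^ (m + 1)) ℚ) :=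
      CyclotomicField.isCyclotomicExtension (3 ^ (m + 1)) ℚ
    have hodd1 : Odd (Module.finrank ℚ K₁) := by
      rw [← e.toLinearEquiv.finrank_eq]
      exact hodd
    refine stable_over h hS K hodd K₁ e.toRingEquiv fun T hT => ?_
    refine (Pool.Agent.Results.MP_78d38b_nt.TwoTorsionStability.result _ _ (base_tw h hS hT)).2
      (exc_tw hP (hodd' T hT)) m (CyclotomicField (3 ^ (m + 1)) ℚ) K₁ hodd1 fun p hp hpd => ?_
    rcases hbad p hp (dvd_tw hT hp hpd) with h | h | h | h | h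
    · exact Or.inl h
    · exact Or.inr (Or.inl h)
    · exact Or.inr (Or.inr (Or.inl h))
    · exact Or.inr (Or.inr (Or.inr (Or.inl h)))
    · exact Or.inr (Or.inr (Or.inr (Or.inr (Or.inl h))))

end Pool.Agent.V11207.SF.MS
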