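import Pool.Agent.Y682.YS.Quad

/-!
# The exponent of the 2-primary part of the Tate-Shafarevich group over `K(√d_1, …, √d_n)`

The theorems of the files `Y682/YS/Real` and `Y682/YS/Quad` (helper682, helper715) for 2-primary parts of
finite exponent over `K` in place of trivial ones; the proofs are the same.
-/

set_option autoImplicit false
set_option linter.unusedSectionVars false

open NumberField IsDedekindDomain WeierstrassCurve

namespace Pool.Agent.V11207.SF

open Pool.Agent.TH841.SH.D (Pt act Gal Coch IsCoc IsCob LocTriv cob)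
open Pool.Agent.TH841.NF (Sc tm tF tm_some tm_act act_tm tm_tm tm_congr act_some' pt_ext act_id
  act_act aL cor cor_coc cor_cob cor_add cor_loc cor_zero_of mem_H sec sec_spec sec_one coc_fin
  coc_of_fin aut_of_two Loc place_r)
open Pool.Agent.TH841.NF.D (Sha shaCoc IsShaCoc)
open Pool.Agent.Y715.CS
open Pool.Agent.Y715.CS.YS (Cor_shaG exists_e')
open Pool.Agent.Y682 (gc)

/-- if the corestrictions of a cocycle to all the curves are coboundaries, a multiple of the cocycle is
a coboundary -/
theorem core {K F : Type} [Field K] [NumberField K] [Field F] [NumberField F] [Algebra K F]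
    [IsGalois K F]
    (e : AlgebraicClosure F ≃+* AlgebraicClosure K)
    (he : ∀ x : K, e (algebraMap F _ (algebraMap K F x)) = algebraMap K _ x)
    {T : Type} [Fintype T] (W : T → WeierstrassCurve K) (W' : WeierstrassCurve F) (u : T → F)
    (S0 : ∀ t, Sc (RingHom.id F) (u t) W' ((W t).baseChange F))
    (hsum : ∀ g : Gal K, ¬ Fx e g → ∀ P : Pt W' (AlgebraicClosure F),
      ∑ t, tm (scI e he (S0 t)) (act (W t) g.toAlgHom (tm (scE e he (S0 t)) P)) = 0)
    [Fintype (Gal K ⧸ HF e)] (f : Coch W')
    (h2 : ∀ t, IsCob (W t) (Cor e he (S0 t) f)) : IsCob W' (Fintype.card T • f) := by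
  classical
  have hfd : FiniteDimensional K F := finKF
  have hN := HF_normal e he
  choose P hP using h2
  refine ⟨∑ t, tm (scI e he (S0 t)) (P t), fun σ => ?_⟩
  have hσ : cQ e he σ ∈ HF e := cQ_fx e he σ
  have h3 : ∀ t, tm (scI e he (S0 t)) (Cor e he (S0 t) f (cQ e he σ)) =
      act W' σ.toAlgHom (tm (scI e he (S0 t)) (P t)) - tm (scI e he (S0 t)) (P t) := by
    intro t
    rw [hP t, map_sub, inv_act e he (S0 t) hσ, cF_cQ]
  have h4 : ∑ t, tm (scI e he (S0 t)) (Cor e he (S0 t) f (cQ e he σ)) =
      Fintype.card T • f σ := by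
    have h5 : ∀ t, tm (scI e he (S0 t)) (Cor e he (S0 t) f (cQ e he σ)) =
        ∑ q : Gal K ⧸ HF e, tm (scI e he (S0 t)) (act (W t) (sec (HF e) q).toAlgHom
          (tm (scE e he (S0 t)) (f (cF e ((sec (HF e) q)⁻¹ * cQ e he σ *
            sec (HF e) q))))) := by
      intro t
      rw [Cor_res e he (S0 t) hN _ hσ, map_sum]
      rfl
    rw [Finset.sum_congr rfl fun t _ => h5 t, Finset.sum_comm,
      Finset.sum_eq_single ((1 : Gal K) : Gal K ⧸ HF e)]
    · rw [sec_one]
      have h6 : ∀ t, tm (scI e he (S0 t)) (act (W t) (1 : Gal K).toAlgHom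
          (tm (scE e he (S0 t)) (f (cF e ((1 : Gal K)⁻¹ * cQ e he σ * 1))))) =
          f σ := by
        intro t
        have h7 : act (W t) (1 : Gal K).toAlgHom
          (tm (scE e he (S0 t)) (f (cF e ((1 : Gal K)⁻¹ * cQ e he σ * 1)))) =
          tm (scE e he (S0 t)) (f (cF e ((1 : Gal K)⁻¹ * cQ e he σ * 1))) :=
          act_id (W t) (1 : Gal K).toAlgHom (fun x => rfl) _
        rw [h7, inv_left e he (S0 t), inv_one, one_mul, mul_one, cF_cQ]
      rw [Finset.sum_congr rfl fun t _ => h6 t, Finset.sum_const, Finset.card_univ]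
    · intro q _ hq1
      apply hsum
      intro hmem
      apply hq1
      rw [← sec_spec (HF e) q, eq_comm, QuotientGroup.eq, inv_one, one_mul]
      exact hmem
    · intro h0
      exact absurd (Finset.mem_univ _) h0
  have h5 : (Fintype.card T • f) σ = Fintype.card T • f σ := rfl
  rw [h5, ← h4, Finset.sum_congr rfl fun t _ => h3 t, Finset.sum_sub_distrib, map_sum]


/-- **The exponent of the Tate-Shafarevich group over `F`**, if the curve over `F` is a base change in
several ways, indexed by `T`. -/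
theorem sha_FG' {K F : Type} [Field K] [NumberField K] [Field F] [NumberField F] [Algebra K F]
    [IsGalois K F]
    (e : AlgebraicClosure F ≃+* AlgebraicClosure K)
    (he : ∀ x : K, e (algebraMap F _ (algebraMap K F x)) = algebraMap K _ x)
    {T : Type} [Fintype T] (W : T → WeierstrassCurve K) (W' : WeierstrassCurve F) (u : T → F)
    (S0 : ∀ t, Sc (RingHom.id F) (u t) W' ((W t).baseChange F))
    (hsum : ∀ g : Gal K, ¬ Fx e g → ∀ P : Pt W' (AlgebraicClosure F),
      ∑ t, tm (scI e he (S0 t)) (act (W t) g.toAlgHom (tm (scE e he (S0 t)) P)) = 0)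
    (p m : ℕ) (hyp : ∀ t, ∀ (n : ℕ) (x : Sha (W t)), p ^ n • x = 0 → p ^ m • x = 0) (n : ℕ)
    (x : Sha W') (hx : p ^ n • x = 0) : (Fintype.card T * p ^ m) • x = 0 := by
  classical
  have hfd : FiniteDimensional K F := finKF
  have hfin := HF_finite e he
  let _ : Fintype (Gal K ⧸ HF e) := Fintype.ofFinite _
  induction x using QuotientAddGroup.induction_on with
  | H f =>
    have h1 : IsCob W' (p ^ n • (f : Coch W')) := by
      have h2 := (QuotientAddGroup.eq_zero_iff (p ^ n • f)).1 hx
      exact h2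
    have h2 : ∀ t, IsCob (W t) (Cor e he (S0 t) (p ^ m • (f : Coch W'))) := by
      intro t
      have h3 := Cor_shaG e he (S0 t) f.2
      have h4 : IsCob (W t) (p ^ n • Cor e he (S0 t) (f : Coch W')) := by
        rw [← Cor_nsmul]
        exact Cor_cob e he (S0 t) h1
      have h5 := hyp t n (QuotientAddGroup.mk (⟨Cor e he (S0 t) (f : Coch W'), h3⟩ :
        shaCoc (W t)) : Sha (W t)) ((QuotientAddGroup.eq_zero_iff (p ^ n •
          (⟨Cor e he (S0 t) (f : Coch W'), h3⟩ : shaCoc (W t)))).2 h4)
      have h6 : IsCob (W t) (p ^ m • Cor e he (S0 t) (f : Coch W')) :=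
        (QuotientAddGroup.eq_zero_iff (p ^ m • (⟨Cor e he (S0 t) (f : Coch W'), h3⟩ :
          shaCoc (W t)))).1 h5
      rw [← Cor_nsmul] at h6
      exact h6
    have h3 := core e he W W' u S0 hsum _ h2
    refine (QuotientAddGroup.eq_zero_iff ((Fintype.card T * p ^ m) • f)).2 ?_
    change IsCob W' ((Fintype.card T * p ^ m) • (f : Coch W'))
    rw [mul_nsmul']
    exact h3

/-- **The 2-primary part of `Ш` over `F = K(√d_1, …, √d_n)`** is killed by `2 ^ (n + m)`, if the
2-primary parts of all the twists over `K` are killed by `2 ^ m`. -/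
theorem quad' {K F : Type} [Field K] [NumberField K] [Field F] [NumberField F] [Algebra K F]
    [IsGalois K F] {n : ℕ} (d : Fin n → ℤ) (x : Fin n → F) (hd : ∀ i, d i ≠ 0)
    (hx : ∀ i, x i ^ 2 = (d i : F))
    (hgen : ∀ S : Subfield F, (∀ k : K, algebraMap K F k ∈ S) → (∀ i, x i ∈ S) → S = ⊤)
    (A B : ℤ) (m : ℕ)
    (hyp : ∀ T : Finset (Fin n), ∀ (k : ℕ)
      (y : Sha (gc (A * ∏ i ∈ T, d i) (B * (∏ i ∈ T, d i) ^ 2) K)), 2 ^ k • y = 0 → 2 ^ m • y = 0)
    (k : ℕ) (y : Sha (gc A B F)) (hy : 2 ^ k • y = 0) : 2 ^ (n + m) • y = 0 := by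
  classical
  have hfd : FiniteDimensional K F := finKF
  obtain ⟨e, he⟩ := exists_e' (K := K) (F := F)
  have hx0 : ∀ i, x i ≠ 0 := by
    intro i h0
    have h1 := hx i
    rw [h0, zero_pow (by norm_num)] at h1
    exact hd i (by exact_mod_cast h1.symm)
  obtain ⟨u, hu⟩ : ∃ u : Finset (Fin n) → F, ∀ T, u T = ∏ i ∈ T, x i := ⟨_, fun T => rfl⟩
  have hune : ∀ T, u T ≠ 0 := fun T => by
    rw [hu]
    exact Finset.prod_ne_zero_iff.2 fun i _ => hx0 i
  have hu2 : ∀ T, u T ^ 2 = ((∏ i ∈ T, d i : ℤ) : F) := by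
    intro T
    rw [hu, ← Finset.prod_pow, Int.cast_prod]
    exact Finset.prod_congr rfl fun i _ => hx i
  have S0 : ∀ T, Sc (RingHom.id F) (u T) (gc A B F)
      ((gc (A * ∏ i ∈ T, d i) (B * (∏ i ∈ T, d i) ^ 2) K).baseChange F) := by
    intro T
    refine ⟨hune T, ?_, ?_, ?_, ?_, ?_⟩
    · change algebraMap K F 0 = (0 : F) * _
      rw [map_zero, zero_mul]
    · change algebraMap K F ((A * ∏ i ∈ T, d i : ℤ) : K) = (A : F) * _
      rw [map_intCast, hu2, Int.cast_mul]
    · change algebraMap K F 0 = (0 : F) * _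
      rw [map_zero, zero_mul]
    · change algebraMap K F ((B * (∏ i ∈ T, d i) ^ 2 : ℤ) : K) = (B : F) * _
      rw [map_intCast, show u T ^ 4 = (u T ^ 2) ^ 2 by ring, hu2, Int.cast_mul, Int.cast_pow]
    · change algebraMap K F 0 = (0 : F) * _
      rw [map_zero, zero_mul]
  have key := sha_FG' (K := K) (F := F) e he (T := Finset (Fin n))
    (fun T => gc (A * ∏ i ∈ T, d i) (B * (∏ i ∈ T, d i) ^ 2) K) (gc A B F) u S0 ?_ 2 m hyp k y hy
  · have h1 : Fintype.card (Finset (Fin n)) = 2 ^ n := by
      rw [Fintype.card_finset, Fintype.card_fin]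
    rw [pow_add, ← h1]
    exact key
  · intro g hg P
    set φ : AlgebraicClosure F →+* AlgebraicClosure F :=
      (e.symm : AlgebraicClosure K →+* AlgebraicClosure F).comp
        ((g : AlgebraicClosure K →+* AlgebraicClosure K).comp
          (e : AlgebraicClosure F →+* AlgebraicClosure K)) with hφ
    have hφa : ∀ x, φ x = e.symm (g (e x)) := fun x => rfl
    set am : F →+* AlgebraicClosure F := algebraMap F (AlgebraicClosure F) with hm
    have hφK : ∀ y : K, φ (am (algebraMap K F y)) = am (algebraMap K F y) := by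
      intro y
      rw [hφa, he, AlgEquiv.commutes, ← he, RingEquiv.symm_apply_apply]
    obtain ⟨s, hs⟩ : ∃ s : Fin n → ℤ, ∀ i, s i = if φ (am (x i)) = am (x i) then 1 else -1 :=
      ⟨_, fun i => rfl⟩
    have hs1 : ∀ i, φ (am (x i)) = (s i : AlgebraicClosure F) * am (x i) := by
      intro i
      rw [hs i]
      by_cases h : φ (am (x i)) = am (x i)
      · rw [if_pos h, h, Int.cast_one, one_mul]
      · rw [if_neg h, Int.cast_neg, Int.cast_one, neg_one_mul]
        have h1 : φ (am (x i)) ^ 2 = am (x i) ^ 2 := by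
          rw [← map_pow, ← map_pow, hx i, map_intCast, map_intCast]
        rcases sq_eq_sq_iff_eq_or_eq_neg.1 h1 with h2 | h2
        · exact absurd h2 h
        · exact h2
    have hspm : ∀ i, s i = 1 ∨ s i = -1 := by
      intro i
      rw [hs i]
      by_cases h : φ (am (x i)) = am (x i)
      · exact Or.inl (if_pos h)
      · exact Or.inr (if_neg h)
    have hcpm : ∀ T : Finset (Fin n), ∏ i ∈ T, s i = 1 ∨ ∏ i ∈ T, s i = -1 := by
      intro T
      refine Finset.prod_induction _ (fun z : ℤ => z = 1 ∨ z = -1) ?_ (Or.inl rfl)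
        fun i _ => hspm i
      rintro a b (rfl | rfl) (rfl | rfl) <;> norm_num
    have hcu : ∀ T, φ (am (u T)) = ((∏ i ∈ T, s i : ℤ) : AlgebraicClosure F) * am (u T) := by
      intro T
      rw [hu, map_prod, map_prod, Int.cast_prod, ← Finset.prod_mul_distrib]
      exact Finset.prod_congr rfl fun i _ => hs1 i
    obtain ⟨i0, hi0⟩ : ∃ i, s i = -1 := by
      by_contra hcon
      push Not at hcon
      apply hg
      have h5 := hgen (RingHom.eqLocusField (φ.comp am) am) (fun y => hφK y) (fun i => by
        have h6 := (hspm i).resolve_right (hcon i)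
        show φ (am (x i)) = am (x i)
        rw [hs1 i, h6, Int.cast_one, one_mul])
      intro y
      have h7 : y ∈ RingHom.eqLocusField (φ.comp am) am := by rw [h5]; trivial
      have h8 : e.symm (g (e (am y))) = am y := h7
      have h9 := congrArg e h8
      rw [RingEquiv.apply_symm_apply] at h9
      exact h9
    have hmu : ∀ T, am (u T) ≠ 0 := fun T => (map_ne_zero am).2 (hune T)
    have h10 : ∀ T, tm (scI e he (S0 T))
        (act (gc (A * ∏ i ∈ T, d i) (B * (∏ i ∈ T, d i) ^ 2) K) g.toAlgHom
          (tm (scE e he (S0 T)) P)) = (∏ i ∈ T, s i) •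
        tm (scI e he (S0 ∅))
        (act (gc (A * ∏ i ∈ (∅ : Finset (Fin n)), d i) (B * (∏ i ∈ (∅ : Finset (Fin n)), d i) ^ 2) K)
          g.toAlgHom (tm (scE e he (S0 ∅)) P)) := by
      intro T
      rcases P with _ | ⟨X, Y, h⟩
      · exact (smul_zero _).symm
      · have hX : ∀ T, e.symm (g (e X * (e (am (u T))) ^ 2)) * ((am (u T))⁻¹) ^ 2 = φ X := by
          intro T
          rw [map_mul, map_mul, map_pow, map_pow, ← hφa, ← hφa, hcu T]
          have h1 : (((∏ i ∈ T, s i : ℤ) : AlgebraicClosure F)) ^ 2 = 1 := by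
            rcases hcpm T with h | h <;> rw [h] <;> norm_num
          have h2 : (am (u T)) ^ 2 * ((am (u T))⁻¹) ^ 2 = 1 := by
            rw [← mul_pow, mul_inv_cancel₀ (hmu T), one_pow]
          calc φ X * (((∏ i ∈ T, s i : ℤ) : AlgebraicClosure F) * am (u T)) ^ 2 *
                ((am (u T))⁻¹) ^ 2 = φ X * (((∏ i ∈ T, s i : ℤ) : AlgebraicClosure F)) ^ 2 *
                ((am (u T)) ^ 2 * ((am (u T))⁻¹) ^ 2) := by ring
            _ = φ X := by rw [h1, h2, mul_one, mul_one]
        have hY : ∀ T, e.symm (g (e Y * (e (am (u T))) ^ 3)) * ((am (u T))⁻¹) ^ 3 =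
            ((∏ i ∈ T, s i : ℤ) : AlgebraicClosure F) * φ Y := by
          intro T
          rw [map_mul, map_mul, map_pow, map_pow, ← hφa, ← hφa, hcu T]
          have h1 : (((∏ i ∈ T, s i : ℤ) : AlgebraicClosure F)) ^ 2 = 1 := by
            rcases hcpm T with h | h <;> rw [h] <;> norm_num
          have h2 : (am (u T)) ^ 3 * ((am (u T))⁻¹) ^ 3 = 1 := by
            rw [← mul_pow, mul_inv_cancel₀ (hmu T), one_pow]
          calc φ Y * (((∏ i ∈ T, s i : ℤ) : AlgebraicClosure F) * am (u T)) ^ 3 *
                ((am (u T))⁻¹) ^ 3 = ((∏ i ∈ T, s i : ℤ) : AlgebraicClosure F) * φ Y *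
                (((∏ i ∈ T, s i : ℤ) : AlgebraicClosure F)) ^ 2 *
                ((am (u T)) ^ 3 * ((am (u T))⁻¹) ^ 3) := by ring
            _ = ((∏ i ∈ T, s i : ℤ) : AlgebraicClosure F) * φ Y := by rw [h1, h2, mul_one, mul_one]
        have hY0 := hY ∅
        rw [Finset.prod_empty, Int.cast_one, one_mul] at hY0
        rcases hcpm T with hc | hc
        · rw [hc, one_smul, tm_some, act_some', tm_some, tm_some, act_some', tm_some]
          refine pt_ext _ _ ?_ ?_
          · exact (hX T).trans (hX ∅).symm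
          · refine (hY T).trans ?_
            rw [hc, Int.cast_one, one_mul]
            exact hY0.symm
        · rw [hc, neg_smul, one_smul, tm_some, act_some', tm_some, tm_some, act_some', tm_some]
          refine Eq.trans ?_ (Affine.Point.neg_some _).symm
          refine pt_ext _ _ ?_ ?_
          · exact (hX T).trans (hX ∅).symm
          · refine (hY T).trans ?_
            rw [hc, Int.cast_neg, Int.cast_one, neg_one_mul]
            have h3 : ∀ z w : AlgebraicClosure F,
                ((gc A B F).baseChange (AlgebraicClosure F)).toAffine.negY z w = -w := by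
              intro z w
              unfold Affine.negY
              have e1 : ((gc A B F).baseChange (AlgebraicClosure F)).toAffine.a₁ = 0 :=
                map_zero am
              have e3 : ((gc A B F).baseChange (AlgebraicClosure F)).toAffine.a₃ = 0 :=
                map_zero am
              rw [e1, e3, zero_mul, sub_zero, sub_zero]
            refine Eq.trans ?_ (h3 _ _).symm
            rw [neg_inj]
            exact hY0.symm
    rw [Finset.sum_congr rfl fun T _ => h10 T, ← Finset.sum_smul]
    have h11 : ∑ T : Finset (Fin n), ∏ i ∈ T, s i = 0 := by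
      have h12 := Finset.prod_one_add (f := s) Finset.univ
      rw [Finset.powerset_univ] at h12
      rw [← h12]
      exact Finset.prod_eq_zero (Finset.mem_univ i0) (by rw [hi0]; norm_num)
    rw [h11, zero_smul]

end Pool.Agent.V11207.SF
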