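import Pool.Agent.Y682.YS.Quad
import Pool.Agent.Y698.Cp
import Pool.Agent.Y723.QT.Bc

/-!
# Restriction of the Tate-Shafarevich group for an extension `F / K` of number fields

The constructions are those of the files `Y682/Rst` (helper682) and `Y696/CTP/Shp` (helper696), for an
arbitrary curve and an arbitrary extension.
-/

set_option autoImplicit false
set_option linter.unusedSectionVars false

open NumberField IsDedekindDomain WeierstrassCurve

namespace Pool.Agent.V11207.SF

open Pool.Agent.TH841.SH.D (Pt act Gal Coch IsCoc IsCob LocTriv cob)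
open Pool.Agent.TH841.NF (Sc tm tm_some tm_act act_tm tm_tm tm_congr tm_id act_some' pt_ext act_id
  act_act aL cor cor_coc cor_cob cor_add cor_loc cor_zero_of mem_H sec sec_spec sec_one coc_fin
  coc_of_fin aut_of_two Loc place_r)
open Pool.Agent.TH841.NF.D (Sha shaCoc IsShaCoc)
open Pool.Agent.Y715.CS

section rest

variable {K F : Type} [Field K] [NumberField K] [Field F] [NumberField F] [Algebra K F]
  {W : WeierstrassCurve K} {W' : WeierstrassCurve F}

lemma sc1 (S0 : Sc (RingHom.id F) 1 W' (W.baseChange F)) {L L' : Type} [Field L] [Algebra K L]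
    [Field L'] [Algebra F L'] (φ : L →+* L')
    (hφ : ∀ x : K, φ (algebraMap K L x) = algebraMap F L' (algebraMap K F x)) :
    Sc φ 1 (W.baseChange L) (W'.baseChange L') := by
  obtain ⟨-, h1, h2, h3, h4, h6⟩ := S0
  refine ⟨one_ne_zero, ?_, ?_, ?_, ?_, ?_⟩
  · change algebraMap F L' W'.a₁ = φ (algebraMap K L W.a₁) * 1
    have e : algebraMap K F W.a₁ = W'.a₁ * 1 := h1
    rw [hφ, e, mul_one, mul_one]
  · change algebraMap F L' W'.a₂ = φ (algebraMap K L W.a₂) * 1 ^ 2
    have e : algebraMap K F W.a₂ = W'.a₂ * 1 ^ 2 := h2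
    rw [hφ, e, one_pow, mul_one, one_pow, mul_one]
  · change algebraMap F L' W'.a₃ = φ (algebraMap K L W.a₃) * 1 ^ 3
    have e : algebraMap K F W.a₃ = W'.a₃ * 1 ^ 3 := h3
    rw [hφ, e, one_pow, mul_one, one_pow, mul_one]
  · change algebraMap F L' W'.a₄ = φ (algebraMap K L W.a₄) * 1 ^ 4
    have e : algebraMap K F W.a₄ = W'.a₄ * 1 ^ 4 := h4
    rw [hφ, e, one_pow, mul_one, one_pow, mul_one]
  · change algebraMap F L' W'.a₆ = φ (algebraMap K L W.a₆) * 1 ^ 6
    have e : algebraMap K F W.a₆ = W'.a₆ * 1 ^ 6 := h6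
    rw [hφ, e, one_pow, mul_one, one_pow, mul_one]

variable (e : AlgebraicClosure F ≃+* AlgebraicClosure K)
  (he : ∀ x : K, e (algebraMap F _ (algebraMap K F x)) = algebraMap K _ x)
  (S0 : Sc (RingHom.id F) 1 W' (W.baseChange F))

include he in
lemma he' (x : K) : (e.symm : AlgebraicClosure K →+* AlgebraicClosure F) (algebraMap K _ x) =
    algebraMap F _ (algebraMap K F x) := by
  change e.symm _ = _
  rw [← he, e.symm_apply_apply]

/-- the restriction of a cochain -/
noncomputable def rs (f : Coch W) : Coch W' := fun σ =>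
  tm (sc1 S0 (e.symm : AlgebraicClosure K →+* AlgebraicClosure F) (he' e he)) (f (cQ e he σ))

lemma rs_act (σ : Gal F) (P : Pt W (AlgebraicClosure K)) :
    tm (sc1 S0 (e.symm : AlgebraicClosure K →+* AlgebraicClosure F) (he' e he))
      (act W (cQ e he σ).toAlgHom P) =
      act W' σ.toAlgHom
        (tm (sc1 S0 (e.symm : AlgebraicClosure K →+* AlgebraicClosure F) (he' e he)) P) := by
  have S : Sc ((e.symm : AlgebraicClosure K →+* AlgebraicClosure F).comp
      ((cQ e he σ : AlgebraicClosure K ≃+* AlgebraicClosure K) :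
        AlgebraicClosure K →+* AlgebraicClosure K)) 1
      (W.baseChange (AlgebraicClosure K)) (W'.baseChange (AlgebraicClosure F)) :=
    sc1 S0 _ fun x => by
      change e.symm ((cQ e he σ) (algebraMap K _ x)) = _
      rw [(cQ e he σ).commutes, ← he, e.symm_apply_apply]
  rw [act_tm (cQ e he σ).toAlgHom (sc1 S0 (e.symm : AlgebraicClosure K →+* AlgebraicClosure F)
    (he' e he)) S (fun x => rfl), tm_act _ σ.toAlgHom S (fun x => ?_) (map_one _).symm]
  change σ (e.symm x) = e.symm (e (σ (e.symm x)))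
  rw [RingEquiv.symm_apply_apply]

lemma rs_cob {f : Coch W} (hf : IsCob W f) : IsCob W' (rs e he S0 f) := by
  obtain ⟨P, hP⟩ := hf
  refine ⟨tm (sc1 S0 (e.symm : AlgebraicClosure K →+* AlgebraicClosure F) (he' e he)) P,
    fun σ => ?_⟩
  unfold rs
  rw [hP, map_sub, rs_act e he S0]

lemma rs_coc {f : Coch W} (hf : IsCoc W f) : IsCoc W' (rs e he S0 f) := by
  classical
  obtain ⟨S, hS⟩ := coc_fin hf
  refine coc_of_fin ?_ (S.image e.symm) ?_
  · intro σ τ
    have h1 : cQ e he (σ * τ) = cQ e he σ * cQ e he τ := by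
      refine AlgEquiv.ext fun x => ?_
      change e ((σ * τ) (e.symm x)) = e (σ (e.symm (e (τ (e.symm x)))))
      rw [RingEquiv.symm_apply_apply]
      rfl
    unfold rs
    rw [h1, hf.2, map_add, rs_act e he S0]
  · intro σ hσ
    unfold rs
    rw [hS, map_zero]
    intro x hx
    change e (σ (e.symm x)) = x
    rw [hσ _ (Finset.mem_image_of_mem _ hx), RingEquiv.apply_symm_apply]

lemma rs_loc {L : Type} [Field L] [Algebra K L] {Fv : Type} [Field Fv] [Algebra F Fv]
    (θ : L →+* Fv) (hθ : ∀ x : K, θ (algebraMap K L x) = algebraMap F Fv (algebraMap K F x))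
    {f : Coch W} (hf : LocTriv W L f) :
    LocTriv W' Fv (rs e he S0 f) := by
  intro ι
  let i1 : Algebra L (AlgebraicClosure Fv) :=
    ((algebraMap Fv (AlgebraicClosure Fv)).comp θ).toAlgebra
  let θ' : AlgebraicClosure L →ₐ[L] AlgebraicClosure Fv := IsAlgClosed.lift
  have hθ' : ∀ y : L, θ' (algebraMap L _ y) = algebraMap Fv _ (θ y) := fun y => θ'.commutes y
  let ι₀ : AlgebraicClosure K →ₐ[K] AlgebraicClosure L := IsAlgClosed.lift
  obtain ⟨h₀, hh₀⟩ := aut_of_two
    ((θ' : AlgebraicClosure L →+* AlgebraicClosure Fv).comp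
      (ι₀ : AlgebraicClosure K →+* AlgebraicClosure L))
    ((ι : AlgebraicClosure F →+* AlgebraicClosure Fv).comp
      (e.symm : AlgebraicClosure K →+* AlgebraicClosure F)) (fun x => by
        change θ' (ι₀ (algebraMap K _ x)) = ι (e.symm (algebraMap K _ x))
        rw [← he, e.symm_apply_apply, ι.commutes, he, ι₀.commutes,
          IsScalarTower.algebraMap_apply K L (AlgebraicClosure L), hθ', hθ,
          ← IsScalarTower.algebraMap_apply F Fv (AlgebraicClosure Fv)])
  let ι₁ : AlgebraicClosure K →ₐ[K] AlgebraicClosure L := ι₀.comp h₀.toAlgHom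
  have hι : ∀ x, ι (e.symm x) = θ' (ι₁ x) := hh₀
  obtain ⟨P₀, hP₀⟩ := hf ι₁
  have hθK : ∀ x : K, θ' (algebraMap K (AlgebraicClosure L) x) =
      algebraMap F (AlgebraicClosure Fv) (algebraMap K F x) := fun x => by
    rw [IsScalarTower.algebraMap_apply K L (AlgebraicClosure L), hθ', hθ,
      ← IsScalarTower.algebraMap_apply F Fv (AlgebraicClosure Fv)]
  have S1 : Sc (θ' : AlgebraicClosure L →+* AlgebraicClosure Fv) 1
    (W.baseChange (AlgebraicClosure L)) (W'.baseChange (AlgebraicClosure Fv)) := sc1 S0 _ hθK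
  refine ⟨tm S1 P₀, fun τ σ hτ => ?_⟩
  obtain ⟨τ₀, hτ₀⟩ := aut_of_two (θ' : AlgebraicClosure L →+* AlgebraicClosure Fv)
    (((τ : AlgebraicClosure Fv ≃+* AlgebraicClosure Fv) : AlgebraicClosure Fv →+*
      AlgebraicClosure Fv).comp (θ' : AlgebraicClosure L →+* AlgebraicClosure Fv)) (by
      intro y
      change θ' (algebraMap L _ y) = τ (θ' (algebraMap L _ y))
      rw [hθ', AlgEquiv.commutes])
  have hτ2 : ∀ x, τ (θ' x) = θ' (τ₀ x) := hτ₀
  have hcomp : ∀ x, τ₀ (ι₁ x) = ι₁ (cQ e he σ x) := by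
    intro x
    apply (θ' : AlgebraicClosure L →+* AlgebraicClosure Fv).injective
    change θ' (τ₀ (ι₁ x)) = θ' (ι₁ (cQ e he σ x))
    rw [← hτ2, ← hι, hτ, ← hι]
    change _ = ι (e.symm (e (σ (e.symm x))))
    rw [RingEquiv.symm_apply_apply]
  have h1 := hP₀ τ₀ (cQ e he σ) hcomp
  have S2 : Sc ((ι : AlgebraicClosure F →+* AlgebraicClosure Fv).comp
      (e.symm : AlgebraicClosure K →+* AlgebraicClosure F)) 1
    (W.baseChange (AlgebraicClosure K)) (W'.baseChange (AlgebraicClosure Fv)) :=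
    sc1 S0 _ fun x => by
      change ι (e.symm _) = _
      rw [← he, e.symm_apply_apply, ι.commutes]
  have h2 : act W' ι (rs e he S0 f σ) = tm S2 (f (cQ e he σ)) :=
    tm_act _ ι S2 (fun x => rfl) (map_one ι).symm _
  have h3 : tm S2 (f (cQ e he σ)) = tm S1 (act W ι₁ (f (cQ e he σ))) :=
    (act_tm ι₁ S1 S2 (fun x => (hι x).symm) _).symm
  rw [h2, h3, h1, map_sub]
  congr 1
  have S3 : Sc (((τ : AlgebraicClosure Fv ≃+* AlgebraicClosure Fv) : AlgebraicClosure Fv →+*
      AlgebraicClosure Fv).comp (θ' : AlgebraicClosure L →+* AlgebraicClosure Fv)) 1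
      (W.baseChange (AlgebraicClosure L)) (W'.baseChange (AlgebraicClosure Fv)) :=
    sc1 S0 _ fun x => by
      change τ (θ' _) = _
      rw [hθK, IsScalarTower.algebraMap_apply F Fv (AlgebraicClosure Fv), AlgEquiv.commutes]
  have h4 : tm S1 (act W (τ₀.toAlgHom.restrictScalars K) P₀) = tm S3 P₀ :=
    act_tm _ S1 S3 (fun x => (hτ2 x).symm) _
  have h5 : act W' (τ.toAlgHom.restrictScalars F) (tm S1 P₀) = tm S3 P₀ :=
    tm_act _ (τ.toAlgHom.restrictScalars F) S3 (fun x => rfl) (map_one _).symm _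
  rw [h4, h5]

lemma rs_sha {f : Coch W} (hf : IsShaCoc W f) : IsShaCoc W' (rs e he S0 f) := by
  refine ⟨rs_coc e he S0 hf.1, fun v => ?_, fun v => ?_⟩
  · exact rs_loc e he S0 (Pool.Agent.Y698.jx K v) (Pool.Agent.Y698.jx_coe K v) (hf.2.1 _)
  · have : v.LiesOver (v.comap (algebraMap K F)) := ⟨rfl⟩
    refine rs_loc e he S0
      (NumberField.LiesOver.completionMap (v := v.comap (algebraMap K F)) (w := v))
      (fun x => ?_) (hf.2.2 _)
    exact NumberField.LiesOver.completionMap_coe _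

lemma rs_add (f f' : Coch W) : rs e he S0 (f + f') = rs e he S0 f + rs e he S0 f' := by
  funext σ
  exact map_add _ _ _

/-- the homomorphism on the cocycles -/
noncomputable def rsC : shaCoc W →+ shaCoc W' where
  toFun f := ⟨rs e he S0 f.1, rs_sha e he S0 f.2⟩
  map_zero' := by
    apply Subtype.ext
    have h := rs_add e he S0 0 0
    rw [add_zero] at h
    exact left_eq_add.1 h
  map_add' f g := Subtype.ext (rs_add e he S0 f.1 g.1)

/-- the restriction on the Tate-Shafarevich groups -/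
noncomputable def rsS : Sha W →+ Sha W' :=
  QuotientAddGroup.map ((cob W).addSubgroupOf (shaCoc W)) ((cob W').addSubgroupOf (shaCoc W'))
    (rsC e he S0) (fun _ hf => rs_cob e he S0 hf)

lemma cQ_cF {g : Gal K} (h : Fx e g) : cQ e he (cF e g) = g := by
  refine AlgEquiv.ext fun x => ?_
  change e (cF e g (e.symm x)) = g x
  rw [e_cF e h, RingEquiv.apply_symm_apply]

lemma tr_rs (f : Coch W) {g : Gal K} (h : Fx e g) : tr e he S0 (rs e he S0 f) g = f g := by
  unfold tr rs
  rw [cQ_cF e he h]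
  generalize f g = P
  rcases P with _ | ⟨x, y, hn⟩
  · rfl
  · rw [tm_some, tm_some]
    refine pt_ext _ _ ?_ ?_
    · change e ((e.symm x) * 1 ^ 2) * (e (algebraMap F _ 1)) ^ 2 = x
      simp only [map_one, one_pow, mul_one, RingEquiv.apply_symm_apply]
    · change e ((e.symm y) * 1 ^ 3) * (e (algebraMap F _ 1)) ^ 3 = y
      simp only [map_one, one_pow, mul_one, RingEquiv.apply_symm_apply]

variable [Fintype (Gal K ⧸ HF e)]

/-- corestriction of a restriction -/
lemma co_rs {f : Coch W} (hf : IsCoc W f) (g : Gal K) :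
    Cor e he S0 (rs e he S0 f) g = (Fintype.card (Gal K ⧸ HF e)) • f g +
      (act W g.toAlgHom (∑ q : Gal K ⧸ HF e, f (sec (HF e) q)) -
        ∑ q : Gal K ⧸ HF e, f (sec (HF e) q)) := by
  unfold Cor cor
  have h1 : ∀ q : Gal K ⧸ HF e, (1 : Gal K →* ℤ) (sec (HF e) (g • q)) •
      aK W (sec (HF e) (g • q)) (tr e he S0 (rs e he S0 f)
        ((sec (HF e) (g • q))⁻¹ * g * sec (HF e) q)) =
      f g + (act W g.toAlgHom (f (sec (HF e) q)) - f (sec (HF e) (g • q))) := by
    intro q
    have h2 := mem_H (s := sec (HF e)) (sec_spec (HF e)) g q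
    rw [tr_rs e he S0 f h2]
    have h3 : f (sec (HF e) (g • q) * ((sec (HF e) (g • q))⁻¹ * g * sec (HF e) q)) =
      f (sec (HF e) (g • q)) + aK W (sec (HF e) (g • q))
        (f ((sec (HF e) (g • q))⁻¹ * g * sec (HF e) q)) := hf.2 _ _
    have h4 : sec (HF e) (g • q) * ((sec (HF e) (g • q))⁻¹ * g * sec (HF e) q) =
      g * sec (HF e) q := by group
    rw [h4, hf.2] at h3
    have h5 : ∀ x : Pt W (AlgebraicClosure K), (1 : Gal K →* ℤ) (sec (HF e) (g • q)) • x = x :=
      fun x => one_smul ℤ x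
    rw [h5]
    rw [eq_sub_of_add_eq' h3.symm]
    abel
  rw [Finset.sum_congr rfl fun q _ => h1 q, Finset.sum_add_distrib, Finset.sum_sub_distrib,
    Finset.sum_const, Finset.card_univ, map_sum]
  congr 2
  exact Equiv.sum_comp (MulAction.toPerm g : Equiv.Perm (Gal K ⧸ HF e)) (fun q : Gal K ⧸ HF e =>
      f (sec (HF e) q))

/-- the kernel of the restriction is killed by the degree -/
lemma ker_rs (y : Sha W) (hy : rsS e he S0 y = 0) : (Fintype.card (Gal K ⧸ HF e)) • y = 0 := by
  induction y using QuotientAddGroup.induction_on with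
  | H f =>
    have h0 : IsCob W' (rs e he S0 f.1) := by
      have h2 := (QuotientAddGroup.eq_zero_iff (N := (cob W').addSubgroupOf (shaCoc W'))
        (rsC e he S0 f)).1 hy
      exact h2
    have h1 := Cor_cob e he S0 h0
    refine (QuotientAddGroup.eq_zero_iff (N := (cob W).addSubgroupOf (shaCoc W))
      ((Fintype.card (Gal K ⧸ HF e)) • f)).2 ?_
    change IsCob W (((Fintype.card (Gal K ⧸ HF e)) • f.1 : Coch W))
    obtain ⟨P, hP⟩ := h1
    refine ⟨P - ∑ q : Gal K ⧸ HF e, f.1 (sec (HF e) q), fun g => ?_⟩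
    have h2 := co_rs e he S0 f.2.1 g
    rw [hP g] at h2
    have h3 : ((Fintype.card (Gal K ⧸ HF e)) • f.1 : Coch W) g =
      (Fintype.card (Gal K ⧸ HF e)) • (f.1 g) := rfl
    rw [h3, map_sub]
    rw [eq_sub_of_add_eq h2.symm]
    abel

end rest

/-- **From `F` to `K`**: if the 2-primary part over `F` has a finite exponent, then the 2-primary part
over `K` has a finite exponent. -/
theorem kl_back {K F : Type} [Field K] [NumberField K] [Field F] [NumberField F] [Algebra K F]
    {W : WeierstrassCurve K} {W' : WeierstrassCurve F}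
    (S0 : Sc (RingHom.id F) 1 W' (W.baseChange F)) {n : ℕ}
    (h : Pool.Agent.Y723.QT.Kl (Sha W') n) : ∃ m, Pool.Agent.Y723.QT.Kl (Sha W) m := by
  classical
  have hfd : FiniteDimensional K F := finKF
  obtain ⟨e, he⟩ := Pool.Agent.Y715.CS.YS.exists_e' (K := K) (F := F)
  have hfin := HF_finite e he
  let _ : Fintype (Gal K ⧸ HF e) := Fintype.ofFinite _
  have hne : Nonempty (Gal K ⧸ HF e) := ⟨((1 : Gal K) : Gal K ⧸ HF e)⟩
  exact ⟨_, Pool.Agent.Y723.QT.kl_of_ker (θ := rsS e he S0) (Fintype.card_ne_zero)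
    (fun x hx => ker_rs e he S0 x hx) h⟩

end Pool.Agent.V11207.SF
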