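import Pool.Agent.V11207.SF.Res
import Pool.Agent.V11207.SF.Quad2
import Pool.Agent.Y195.CS.FS

/-!
# The 2-primary part of the Tate-Shafarevich group over `F` and over `F(√D)`
-/

set_option autoImplicit false
set_option linter.unusedSectionVars false

open Finset NumberField IsDedekindDomain Polynomial

namespace Pool.Agent.V11207.SF

open Pool.Agent.TH841.NF (Sc)
open Pool.Agent.TH841.NF.D (Sha)
open Pool.Agent.Y682 (gc)
open Pool.Agent.Y723.QT (Kl)

/-- a field generated by a square root is a Galois extension -/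
lemma galois1 {K F : Type} [Field K] [NumberField K] [Field F] [NumberField F] [Algebra K F]
    {n : ℕ} (d : Fin n → ℤ) (x : Fin n → F) (hx : ∀ i, x i ^ 2 = (d i : F))
    (hgen : ∀ S : Subfield F, (∀ k : K, algebraMap K F k ∈ S) → (∀ i, x i ∈ S) → S = ⊤) :
    IsGalois K F := by
  classical
  have hfd : FiniteDimensional K F := Pool.Agent.Y715.CS.finKF
  set p : K[X] := ∏ i, (X ^ 2 - C (d i : K)) with hp
  have hmap : p.map (algebraMap K F) = ∏ i, ((X - C (x i)) * (X - C (-x i))) := by
    rw [hp, Polynomial.map_prod]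
    refine prod_congr rfl fun i _ => ?_
    have h1 : C ((d i : ℤ) : F) = C (x i) ^ 2 := by rw [← C_pow, hx]
    rw [Polynomial.map_sub, Polynomial.map_pow, Polynomial.map_X, Polynomial.map_C, map_intCast,
      h1, C_neg]
    ring
  have hp0 : p ≠ 0 := by
    rw [hp]
    exact prod_ne_zero_iff.2 fun i _ => (monic_X_pow_sub_C _ (by norm_num)).ne_zero
  have hspl : IsSplittingField K F p := by
    refine ⟨?_, ?_⟩
    · rw [hmap]
      exact Splits.prod fun i _ => (Splits.X_sub_C _).mul (Splits.X_sub_C _)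
    · have h1 := IntermediateField.adjoin_toSubalgebra_of_isAlgebraic (F := K) (E := F)
        (S := p.rootSet F) (fun y _ => (Algebra.IsAlgebraic.isAlgebraic y))
      rw [← h1]
      have h2 : (IntermediateField.adjoin K (p.rootSet F)) = ⊤ := by
        have h3 := hgen (IntermediateField.adjoin K (p.rootSet F)).toSubfield
          (fun k => (IntermediateField.adjoin K (p.rootSet F)).algebraMap_mem k) (fun i => by
            apply IntermediateField.subset_adjoin
            rw [mem_rootSet]
            refine ⟨hp0, ?_⟩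
            rw [aeval_def, eval₂_eq_eval_map, hmap, eval_prod]
            refine prod_eq_zero (mem_univ i) ?_
            rw [eval_mul, eval_sub, eval_X, eval_C, sub_self, zero_mul])
        rw [eq_top_iff]
        intro y _
        have h4 : y ∈ (IntermediateField.adjoin K (p.rootSet F)).toSubfield := by
          rw [h3]
          trivial
        exact h4
      rw [h2]
      exact IntermediateField.top_toSubalgebra
  have hn : Normal K F := Normal.of_isSplittingField p
  exact ⟨⟩

/-- the fields `F` and `F(√D)`: the upper bound for the exponent -/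
theorem up_gc (F F' : IntermediateField ℚ ℂ) [NumberField F] [NumberField F'] {z : ℂ} {D : ℤ}
    (hD : D ≠ 0) (hz : z ^ 2 = (D : ℂ)) (hF' : F' = F ⊔ IntermediateField.adjoin ℚ {z})
    (A B : ℤ) (n : ℕ) (h0 : Kl (Sha (gc A B F)) n)
    (h1 : Kl (Sha (gc (A * D) (B * D ^ 2) F)) n) : Kl (Sha (gc A B F')) (n + 1) := by
  have hle : F ≤ F' := by rw [hF']; exact le_sup_left
  have hzF' : z ∈ F' := by
    rw [hF']
    exact (le_sup_right : _ ≤ F ⊔ IntermediateField.adjoin ℚ {z})
      (IntermediateField.mem_adjoin_simple_self ℚ z)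
  let _ : Algebra F F' := (IntermediateField.inclusion hle).toRingHom.toAlgebra
  have hx : ∀ i : Fin 1, (fun _ : Fin 1 => (⟨z, hzF'⟩ : F')) i ^ 2 =
      (((fun _ : Fin 1 => D) i : ℤ) : F') := by
    intro i
    apply Subtype.ext
    show z ^ 2 = ((D : F') : ℂ)
    rw [hz]
    exact (map_intCast (algebraMap F' ℂ) D).symm
  have hgen : ∀ S : Subfield F', (∀ k : F, algebraMap F F' k ∈ S) →
      (∀ i : Fin 1, (fun _ : Fin 1 => (⟨z, hzF'⟩ : F')) i ∈ S) → S = ⊤ := by
    intro S hS1 hS2
    let S' : IntermediateField ℚ ℂ := Subfield.toIntermediateField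
      (S.map (F'.val : F' →+* ℂ)) (fun r => by
        refine ⟨algebraMap ℚ F' r, ?_, ?_⟩
        · exact SubfieldClass.ratCast_mem S r
        · rfl)
    have hle' : F' ≤ S' := by
      rw [hF']
      refine sup_le ?_ ?_
      · intro w hw
        exact ⟨(IntermediateField.inclusion hle ⟨w, hw⟩ : F'), hS1 ⟨w, hw⟩, rfl⟩
      · rw [IntermediateField.adjoin_simple_le_iff]
        exact ⟨⟨z, hzF'⟩, hS2 0, rfl⟩
    rw [eq_top_iff]
    intro y _
    obtain ⟨s, hs, hsy⟩ := hle' y.2
    have h3 : s = y := Subtype.ext hsy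
    rw [← h3]
    exact hs
  have hgal : IsGalois F F' := galois1 (fun _ : Fin 1 => D) (fun _ => (⟨z, hzF'⟩ : F')) hx hgen
  intro k y hy
  have key : ∀ A' B' : ℤ, (A' = A ∧ B' = B) ∨ (A' = A * D ∧ B' = B * D ^ 2) →
      Kl (Sha (gc A' B' F)) n := by
    rintro A' B' (⟨rfl, rfl⟩ | ⟨rfl, rfl⟩)
    · exact h0
    · exact h1
  have h := quad' (K := F) (F := F') (fun _ : Fin 1 => D) (fun _ => (⟨z, hzF'⟩ : F'))
    (fun _ => hD) hx hgen A B n (fun T k y hy => by
      refine key _ _ ?_ k y hy
      rcases T.eq_empty_or_nonempty with rfl | hne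
      · left
        rw [prod_empty, mul_one, one_pow, mul_one]
        exact ⟨rfl, rfl⟩
      · right
        have hT : T = {0} := by
          obtain ⟨i, hi⟩ := hne
          ext j
          have e1 := Subsingleton.elim i 0
          have e2 := Subsingleton.elim j 0
          subst e1
          subst e2
          simp [hi]
        rw [hT, prod_singleton]
        exact ⟨rfl, rfl⟩) k y hy
  rwa [add_comm] at h

/-- a curve with integral coefficients over two fields -/
lemma sc_int (W : WeierstrassCurve ℤ) {F F' : Type} [Field F] [Field F'] [Algebra F F'] :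
    Sc (RingHom.id F') 1 (W.map (Int.castRingHom F'))
      ((W.map (Int.castRingHom F)).baseChange F') := by
  refine ⟨one_ne_zero, ?_, ?_, ?_, ?_, ?_⟩
  · change algebraMap F F' ((W.a₁ : ℤ) : F) = ((W.a₁ : ℤ) : F') * 1
    rw [map_intCast, mul_one]
  · change algebraMap F F' ((W.a₂ : ℤ) : F) = ((W.a₂ : ℤ) : F') * 1 ^ 2
    rw [map_intCast, one_pow, mul_one]
  · change algebraMap F F' ((W.a₃ : ℤ) : F) = ((W.a₃ : ℤ) : F') * 1 ^ 3
    rw [map_intCast, one_pow, mul_one]
  · change algebraMap F F' ((W.a₄ : ℤ) : F) = ((W.a₄ : ℤ) : F') * 1 ^ 4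
    rw [map_intCast, one_pow, mul_one]
  · change algebraMap F F' ((W.a₆ : ℤ) : F) = ((W.a₆ : ℤ) : F') * 1 ^ 6
    rw [map_intCast, one_pow, mul_one]

/-- from the larger field to the smaller one -/
theorem down_int (W : WeierstrassCurve ℤ) (F F' : IntermediateField ℚ ℂ) [NumberField F]
    [NumberField F'] (hle : F ≤ F') {n : ℕ} (h : Kl (Sha (W.map (Int.castRingHom F'))) n) :
    ∃ m, Kl (Sha (W.map (Int.castRingHom F))) m := by
  let _ : Algebra F F' := (IntermediateField.inclusion hle).toRingHom.toAlgebra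
  exact kl_back (sc_int W) h

/-- finitely many elements of order two, and an exponent -/
lemma fin_prim {G : Type} [AddCommGroup G] (h : Finite {x : G // 2 • x = 0}) {n : ℕ}
    (hn : Kl G n) : Finite (AddCommGroup.primaryComponent G 2) := by
  have h1 : Finite {x : G // x + x = 0} := by
    refine Finite.of_injective (β := {x : G // 2 • x = 0})
      (fun x => ⟨x.1, by rw [two_nsmul]; exact x.2⟩) ?_
    intro x y hxy
    exact Subtype.ext (congrArg (fun z : {x : G // 2 • x = 0} => z.1) hxy)
  have h2 := (Pool.Agent.TH841.SH.card_tor h1 n).1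
  refine Finite.of_injective (β := {x : G // 2 ^ n • x = 0})
    (fun x => ⟨x.1, ?_⟩) ?_
  · obtain ⟨k, hk⟩ := x.2
    exact hn k x.1 hk
  · intro x y hxy
    exact Subtype.ext (congrArg (fun z : {x : G // 2 ^ n • x = 0} => z.1) hxy)

lemma exp_of_fin {G : Type} [AddCommGroup G] (h : Finite (AddCommGroup.primaryComponent G 2)) :
    ∃ n, Kl G n := by
  have h1 : ∀ x : AddCommGroup.primaryComponent G 2, ∃ k : ℕ, (2 ^ k : ℕ) • (x : G) = 0 := by
    rintro ⟨x, k, hk⟩
    exact ⟨k, hk⟩
  choose k hk using h1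
  let _ := Fintype.ofFinite (AddCommGroup.primaryComponent G 2)
  refine ⟨Finset.univ.sup k, fun j x hx => ?_⟩
  exact Pool.Agent.Y723.QT.pow_kill (Finset.le_sup (f := k) (mem_univ ⟨x, j, hx⟩)) (hk ⟨x, j, hx⟩)

lemma fin_iff {G : Type} [AddCommGroup G] (h : Finite {x : G // 2 • x = 0}) :
    Finite (AddCommGroup.primaryComponent G 2) ↔ ∃ n, Kl G n :=
  ⟨exp_of_fin, fun ⟨_, hn⟩ => fin_prim h hn⟩

/-- the exponents of isomorphic groups -/
lemma kl_congr {G H : Type} [AddCommGroup G] [AddCommGroup H] (e : G ≃+ H) {n : ℕ} :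
    Kl G n ↔ Kl H n := by
  constructor
  · intro h k y hy
    apply e.symm.injective
    rw [map_nsmul, map_zero]
    exact h k _ (by rw [← map_nsmul, hy, map_zero])
  · intro h k y hy
    apply e.injective
    rw [map_nsmul, map_zero]
    exact h k _ (by rw [← map_nsmul, hy, map_zero])

/-- finitely many elements of order two -/
lemma two_fin {A B : ℤ} (hB : B ≠ 0) (hD : A ^ 2 - 4 * B ≠ 0) (F : Type) [Field F]
    [NumberField F] : Finite {x : Sha (gc A B F) // 2 • x = 0} :=
  Pool.Agent.Y195.CS.fs F (gc A B F) A B (Pool.Agent.Y682.gc_isT (A := A) (B := B) hB hD F)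

end Pool.Agent.V11207.SF
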