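import Pool.Agent.V11207.SF.Step1
import Pool.Agent.V11291.RG.Tow
import Pool.Agent.V11291.RG.Lay
import Pool.Agent.V11291.RG.Chain

/-!
# The 2-primary part of the Tate-Shafarevich group and the rank of the twists of `X_0(14)` over
# `K(√d : d ∈ S)` and over `K(√D, √d : d ∈ S)`
-/

set_option autoImplicit false
set_option linter.unusedSectionVars false

open Finset NumberField IsDedekindDomain

namespace Pool.Agent.V11207.SF

open scoped Classical

open Pool.Agent.Y687.MQ (AdmD matD)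
open Pool.Agent.Y682.YQ (H9)
open Pool.Agent.Y682.XD (RR mq mq_insert)
open Pool.Agent.Y700 (WM)
open Pool.Agent.Y682.XF (base)
open Pool.Agent.TH841.NF.D (Sha)
open Pool.Agent.Y682 (gc)
open Pool.Agent.Y723.QT (Kl)
open Pool.Agent.V11291.RG

/-- the change of variables -/
lemma kl_base (F : Type) [Field F] [NumberField F] {c : ℤ} (hc : c % 4 = 1) {n : ℕ} :
    Kl (Sha (base (WM c) F)) n ↔ Kl (Sha (gc (13 * c) (128 * c ^ 2) F)) n := by
  obtain ⟨-, ⟨e⟩⟩ := Pool.Agent.Y655.XT.s_shavc F (base (WM c) F)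
    (gc (13 * c) (128 * c ^ 2) F) (Pool.Agent.Y682.XF.CVD F c) (Pool.Agent.Y682.XF.wm_disc_ne F hc)
    (Pool.Agent.Y682.XF.cvd_eq F hc)
  exact kl_congr e

lemma two_fin_base (F : Type) [Field F] [NumberField F] {c : ℤ} (hc : c % 4 = 1) :
    Finite {x : Sha (base (WM c) F) // 2 • x = 0} := by
  obtain ⟨-, ⟨e⟩⟩ := Pool.Agent.Y655.XT.s_shavc F (base (WM c) F)
    (gc (13 * c) (128 * c ^ 2) F) (Pool.Agent.Y682.XF.CVD F c) (Pool.Agent.Y682.XF.wm_disc_ne F hc)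
    (Pool.Agent.Y682.XF.cvd_eq F hc)
  have hc0 : c ≠ 0 := by
    rintro rfl
    norm_num at hc
  have h1 : Finite {x : Sha (gc (13 * c) (128 * c ^ 2) F) // 2 • x = 0} :=
    two_fin (mul_ne_zero (by norm_num) (pow_ne_zero 2 hc0)) (by
      have e1 : (13 * c) ^ 2 - 4 * (128 * c ^ 2) = -343 * c ^ 2 := by ring
      rw [e1]
      exact mul_ne_zero (by norm_num) (pow_ne_zero 2 hc0)) F
  refine Finite.of_injective
    (β := {x : Sha (gc (13 * c) (128 * c ^ 2) F) // 2 • x = 0})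
    (fun x => ⟨e x.1, by rw [← map_nsmul, x.2, map_zero]⟩) ?_
  intro y z hyz
  exact Subtype.ext (e.injective
    (congrArg (fun z : {x : Sha (gc (13 * c) (128 * c ^ 2) F) // 2 • x = 0} => z.1) hyz))

/-- the 2-primary part is finite if and only if it has a finite exponent -/
lemma fin_base (F : Type) [Field F] [NumberField F] {c : ℤ} (hc : c % 4 = 1) :
    Finite (AddCommGroup.primaryComponent (Sha (base (WM c) F)) 2) ↔
      ∃ n, Kl (Sha (base (WM c) F)) n := fin_iff (two_fin_base F hc)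

/-- the products -/
lemma prod_cl {S : Finset ℤ} (hS : ∀ d ∈ S, Cl d) {b D : ℤ} (hb : Cl b) (hD : Cl D)
    (hEx : ∀ T ⊆ S, ∀ D' k : ℤ, AdmD D' → D * (b * ∏ d ∈ T, d) = D' * k ^ 2 →
      (matD D').det ≠ 0) {T : Finset ℤ} (hT : T ⊆ S) :
    ∃ C k : ℤ, AdmD C ∧ H9 C ∧ (matD C).det ≠ 0 ∧ k ≠ 0 ∧ b * D * ∏ d ∈ T, d = C * k ^ 2 := by
  obtain ⟨C₁, k₁, h1, h2, h3, h4⟩ := Pool.Agent.V11291.JH.prodS (S := T)
    fun d hd => ⟨(hS d (hT hd)).1, (hS d (hT hd)).2⟩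
  obtain ⟨C₂, k₂, g1, g2, g3, g4, -⟩ := Pool.Agent.Y682.YS.mulD hb.1 hb.2 h1 h2
  obtain ⟨C₃, k₃, l1, l2, l3, l4, -⟩ := Pool.Agent.Y682.YS.mulD hD.1 hD.2 g1 g2
  have e1 : D * (b * ∏ d ∈ T, d) = C₃ * (k₃ * (k₂ * k₁)) ^ 2 := by
    have e2 : b * ∏ d ∈ T, d = C₂ * (k₂ * k₁) ^ 2 := by
      rw [h4, ← mul_assoc, g4]
      ring
    rw [e2, ← mul_assoc, l4]
    ring
  refine ⟨C₃, k₃ * (k₂ * k₁), l1, l2, hEx T hT _ _ l1 e1,
    mul_ne_zero l3 (mul_ne_zero g3 h3), ?_⟩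
  rw [← e1]
  ring

lemma mul_mod {b D : ℤ} (hb : b % 4 = 1) (hD : D % 4 = 1) : (b * D) % 4 = 1 := by
  rw [Int.mul_emod, hb, hD]
  norm_num

/-- the 2-primary part for the twist by `b D` -/
theorem twist_kl {S : Finset ℤ} (hS : ∀ d ∈ S, Cl d) {b D : ℤ} (hb : Cl b) (hD : Cl D)
    (hEx : ∀ T ⊆ S, ∀ D' k : ℤ, AdmD D' → D * (b * ∏ d ∈ T, d) = D' * k ^ 2 →
      (matD D').det ≠ 0)
    (m : ℕ) (K : IntermediateField ℚ ℂ) [NumberField K]
    (hK : K ≤ IntermediateField.adjoin ℚ {z : ℂ | z ^ (3 ^ (m + 1)) = 1})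
    (hodd : Odd (Module.finrank ℚ K)) (F : IntermediateField ℚ ℂ) [NumberField F]
    (hF : F = mq S ⊔ K) : Kl (Sha (base (WM (b * D)) F)) S.card := by
  obtain ⟨d, hinj, himg⟩ := enum S
  have hdS : ∀ i, d i ∈ S := fun i => by
    have h := mem_image_of_mem d (mem_univ i)
    rwa [himg] at h
  intro k y hy
  refine sha_CD d (fun i => (hS _ (hdS i)).1.1.ne_zero) (mul_mod hb.1.2.1 hD.1.2.1) (fun T => ?_) m K
    hK hodd (mq S) F (mq_eq himg) hF k y hy
  obtain ⟨C, k, g1, g2, g3, g4, g5⟩ := prod_cl hS hb hD hEx (T := T.image d) (by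
    intro x hx
    obtain ⟨i, -, rfl⟩ := mem_image.1 hx
    exact hdS i)
  rw [Finset.prod_image fun i _ j _ h => hinj h] at g5
  exact ⟨C, k, g1, g2, g3, g4, g5⟩

/-- the rank of the twist by `b D` -/
theorem twist_rr {S : Finset ℤ} (hS : ∀ d ∈ S, Cl d) {b D : ℤ} (hb : Cl b) (hD : Cl D)
    (hEx : ∀ T ⊆ S, ∀ D' k : ℤ, AdmD D' → D * (b * ∏ d ∈ T, d) = D' * k ^ 2 →
      (matD D').det ≠ 0)
    (m : ℕ) (K : IntermediateField ℚ ℂ) [NumberField K]
    (hK : K ≤ IntermediateField.adjoin ℚ {z : ℂ | z ^ (3 ^ (m + 1)) = 1})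
    (hodd : Odd (Module.finrank ℚ K)) (F : IntermediateField ℚ ℂ) [NumberField F]
    (hF : F = mq S ⊔ K) : RR F (b * D) = 0 := by
  refine (rr_subK K S fun d hd => (hS d hd).1.1.ne_zero).2 F hF (b * D)
    (mul_ne_zero hb.1.1.ne_zero hD.1.1.ne_zero) fun T hT => ?_
  obtain ⟨C, k, g1, g2, g3, g4, g5⟩ := prod_cl hS hb hD hEx hT
  rw [g5]
  exact rr_goodK m K hK hodd g1 g2 g3 g4

/-- **One step.** -/
theorem step {S : Finset ℤ} (hS : ∀ d ∈ S, Cl d) {b D : ℤ} (hb : Cl b) (hD : Cl D)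
    (hEx : ∀ T ⊆ S, ∀ D' k : ℤ, AdmD D' → D * (b * ∏ d ∈ T, d) = D' * k ^ 2 →
      (matD D').det ≠ 0)
    (m : ℕ) (K : IntermediateField ℚ ℂ) [NumberField K]
    (hK : K ≤ IntermediateField.adjoin ℚ {z : ℂ | z ^ (3 ^ (m + 1)) = 1})
    (hodd : Odd (Module.finrank ℚ K)) (F F' : IntermediateField ℚ ℂ) [NumberField F]
    [NumberField F'] (hF : F = mq S ⊔ K) (hF' : F' = mq (insert D S) ⊔ K) :
    RR F' b = RR F b ∧
    (∀ n, S.card ≤ n → Kl (Sha (base (WM b) F)) n → Kl (Sha (base (WM b) F')) (n + 1)) ∧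
    (∀ n, Kl (Sha (base (WM b) F')) n → ∃ n', Kl (Sha (base (WM b) F)) n') := by
  have P := Pool.Agent.Y682.YS.partsD
  obtain ⟨z, hz⟩ : ∃ z : ℂ, z ^ 2 = (D : ℂ) := IsAlgClosed.exists_pow_nat_eq _ (by norm_num)
  have hins := mq_insert S D hz
  have hF'' : F' = F ⊔ IntermediateField.adjoin ℚ {z} := by
    rw [hF', hF, hins, sup_right_comm]
  have hle : F ≤ F' := by rw [hF'']; exact le_sup_left
  have hb4 := hb.1.2.1
  have hD4 := hD.1.2.1
  refine ⟨?_, fun n hn h => ?_, fun n h => ?_⟩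
  · by_cases hzF : z ∈ F
    · have e : F' = F := by
        rw [hF'']
        exact sup_eq_left.2 ((IntermediateField.adjoin_simple_le_iff).2 hzF)
      subst e
      rfl
    · rw [Pool.Agent.Y682.XD.RR_quad P.qf P.deg2 F F' hD.1.1.ne_zero hzF hz hF'' hb.1.1.ne_zero,
        twist_rr hS hb hD hEx m K hK hodd F hF, add_zero]
  · have h1 := (twist_kl hS hb hD hEx m K hK hodd F hF).mono hn
    rw [kl_base F (mul_mod hb4 hD4)] at h1
    rw [kl_base F hb4] at h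
    rw [kl_base F' hb4]
    refine up_gc F F' hD.1.1.ne_zero hz hF'' (13 * b) (128 * b ^ 2) n h ?_
    have e1 : 13 * b * D = 13 * (b * D) := by ring
    have e2 : 128 * b ^ 2 * D ^ 2 = 128 * (b * D) ^ 2 := by ring
    rw [e1, e2]
    exact h1
  · exact down_int (WM b) F F' hle h

/-- **One step**, the finiteness. -/
theorem step_fin {S : Finset ℤ} (hS : ∀ d ∈ S, Cl d) {b D : ℤ} (hb : Cl b) (hD : Cl D)
    (hEx : ∀ T ⊆ S, ∀ D' k : ℤ, AdmD D' → D * (b * ∏ d ∈ T, d) = D' * k ^ 2 →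
      (matD D').det ≠ 0)
    (m : ℕ) (K : IntermediateField ℚ ℂ) [NumberField K]
    (hK : K ≤ IntermediateField.adjoin ℚ {z : ℂ | z ^ (3 ^ (m + 1)) = 1})
    (hodd : Odd (Module.finrank ℚ K)) (F F' : IntermediateField ℚ ℂ) [NumberField F]
    [NumberField F'] (hF : F = mq S ⊔ K) (hF' : F' = mq (insert D S) ⊔ K) :
    Finite (AddCommGroup.primaryComponent (Sha (base (WM b) F')) 2) ↔
      Finite (AddCommGroup.primaryComponent (Sha (base (WM b) F)) 2) := by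
  obtain ⟨-, h1, h2⟩ := step hS hb hD hEx m K hK hodd F F' hF hF'
  rw [fin_base F' hb.1.2.1, fin_base F hb.1.2.1]
  constructor
  · rintro ⟨n, hn⟩
    exact h2 n hn
  · rintro ⟨n, hn⟩
    exact ⟨_, h1 (max n S.card) (le_max_right _ _) (hn.mono (le_max_left _ _))⟩

/-- **The towers.** -/
theorem tower_fin {B S : Finset ℤ} {d : ℕ → ℤ} (hB : ∀ b ∈ B, Cl b)
    (hd : ∀ n, (∀ x ∈ S ∪ (range n).image d, Cl x) ∧ ExB B (S ∪ (range n).image d) (d n))
    (m : ℕ) (K : IntermediateField ℚ ℂ) [NumberField K]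
    (hK : K ≤ IntermediateField.adjoin ℚ {z : ℂ | z ^ (3 ^ (m + 1)) = 1})
    (hodd : Odd (Module.finrank ℚ K)) (F : IntermediateField ℚ ℂ) [NumberField F]
    (hF : F = mq S ⊔ K) (n : ℕ) : ∀ (F' : IntermediateField ℚ ℂ) [NumberField F'],
      F' = mq (S ∪ (range n).image d) ⊔ K → ∀ b ∈ B, RR F' b = RR F b ∧
        (Finite (AddCommGroup.primaryComponent (Sha (base (WM b) F')) 2) ↔
          Finite (AddCommGroup.primaryComponent (Sha (base (WM b) F)) 2)) := by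
  induction n with
  | zero =>
    intro F' _ hF' b hb
    rw [range_zero, image_empty, union_empty] at hF'
    have e : F' = F := by rw [hF', hF]
    subst e
    exact ⟨rfl, Iff.rfl⟩
  | succ n ih =>
    intro F' _ hF' b hb
    obtain ⟨h1, h2⟩ := hd n
    have e1 : S ∪ (range (n + 1)).image d = insert (d n) (S ∪ (range n).image d) := by
      rw [range_add_one, image_insert, union_insert]
    rw [e1] at hF'
    have hfd : FiniteDimensional ℚ (mq (S ∪ (range n).image d) ⊔ K : IntermediateField ℚ ℂ) :=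
      (rr_subK K _ fun x hx => (h1 x hx).1.1.ne_zero).1
    have hN : NumberField (mq (S ∪ (range n).image d) ⊔ K : IntermediateField ℚ ℂ) :=
      { to_charZero := inferInstance, to_finiteDimensional := hfd }
    obtain ⟨g1, g2⟩ := ih (mq (S ∪ (range n).image d) ⊔ K) rfl b hb
    have hdn : Cl (d n) := by
      have h3 := (hd (n + 1)).1 (d n)
      rw [e1] at h3
      exact h3 (mem_insert_self _ _)
    have hE := h2 b hb
    rw [← g1, ← g2]
    exact ⟨(step h1 (hB b hb) hdn hE m K hK hodd _ F' rfl hF').1,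
      step_fin h1 (hB b hb) hdn hE m K hK hodd _ F' rfl hF'⟩

end Pool.Agent.V11207.SF
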