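import Pool.Agent.V11207.SF.MS
import Pool.Agent.V11207.SF.SE
import Pool.Agent.V11207.SF.Step2

/-!
# `X_0(14)` over `ℚ(√d : d ∈ S)` and over `K(√d : d ∈ S)`, `K(√D, √d : d ∈ S)`: the 2-primary part
-/

set_option autoImplicit false
set_option linter.unusedSectionVars false

open Finset NumberField IsDedekindDomain

namespace Pool.Agent.V11207.SF

open scoped Classical

open Pool.Agent.Y687.MQ (AdmD matD)
open Pool.Agent.Y682.YQ (H9)
open Pool.Agent.Y682.XD (RR mq mq_insert)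
open Pool.Agent.Y700 (WM)
open Pool.Agent.Y682.XF (base)
open Pool.Agent.TH841.NF.D (Sha)
open Pool.Agent.Y682 (gc)
open Pool.Agent.Y723.QT (Kl)
open Pool.Agent.V11291.RG
open Pool.Agent.V11291.JH (Ex)

lemma cl_one : Cl 1 := ⟨Pool.Agent.Y682.YS.oneD.1, Pool.Agent.Y682.YS.oneD.2⟩

/-- the two equations of the curve -/
lemma fin_one (F : Type) [Field F] [NumberField F] :
    Finite (AddCommGroup.primaryComponent (Sha (base (WM 1) F)) 2) ↔
      Finite (AddCommGroup.primaryComponent (Sha (gc 13 128 F)) 2) := by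
  have h := fin_base F (c := 1) (by norm_num)
  have h1 : ∀ n, Kl (Sha (base (WM 1) F)) n ↔ Kl (Sha (gc 13 128 F)) n := by
    intro n
    have h2 := kl_base F (c := 1) (by norm_num) (n := n)
    have e1 : (13 * 1 : ℤ) = 13 := by norm_num
    have e2 : (128 * 1 ^ 2 : ℤ) = 128 := by norm_num
    rw [e1, e2] at h2
    exact h2
  rw [h, fin_iff (two_fin (by norm_num) (by norm_num) F)]
  simp only [h1]

/-- the conditions of the theorem for general curves -/
lemma pair_14 : Pool.Agent.Results.MP_78d38b_nt.TwoTorsionStability.Pair 13 128 := by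
  unfold Pool.Agent.Results.MP_78d38b_nt.TwoTorsionStability.Pair
  refine ⟨by norm_num, by norm_num, by norm_num, ?_⟩
  constructor
  · intro _
    left
    norm_num
  · intro _
    exact ⟨by norm_num, Or.inr (by norm_num)⟩

lemma base_14 {S : Finset ℤ} (hS : ∀ d ∈ S, Cl d) (hI : Inde S) : MS.IsBase 13 128 S := by
  refine ⟨fun d hd h2 => ?_, Or.inr (Or.inr (by norm_num)), hI⟩
  have h := (hS d hd).1.2.1
  omega

lemma plain_14 : MS.Plain 13 128 := by
  unfold MS.Plain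
  refine Or.inr (Or.inl ⟨by norm_num, by norm_num⟩)

lemma primes_14 {S : Finset ℤ} (hS : ∀ d ∈ S, Cl d) (p : ℕ) (hp : p.Prime)
    (hpd : (p : ℤ) ∣ 128 * ((13 : ℤ) ^ 2 - 4 * 128) * ∏ d ∈ S, d) :
    p = 3 ∨ p % 9 = 2 ∨ p % 9 = 4 ∨ p % 9 = 5 ∨ p % 9 = 7 := by
  right
  rcases (Nat.prime_iff_prime_int.1 hp).dvd_or_dvd hpd with h | h
  · have e1 : (128 * ((13 : ℤ) ^ 2 - 4 * 128)) = -(((2 ^ 7 * 7 ^ 3 : ℕ) : ℤ)) := by norm_num
    rw [e1, dvd_neg, Int.natCast_dvd_natCast] at h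
    rcases (Nat.Prime.dvd_mul hp).1 h with h | h
    · have := (Nat.prime_dvd_prime_iff_eq hp Nat.prime_two).1 (hp.dvd_of_dvd_pow h)
      left
      rw [this]
    · have := (Nat.prime_dvd_prime_iff_eq hp (by norm_num : Nat.Prime 7)).1 (hp.dvd_of_dvd_pow h)
      right; right; right
      rw [this]
  · obtain ⟨d, hd, hpd'⟩ := (Nat.prime_iff_prime_int.1 hp).exists_mem_finset_dvd h
    exact (hS d hd).2 p hp hpd'

/-- **From `ℚ(√d : d ∈ S)` to `K(√d : d ∈ S)`**, the 2-primary part. -/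
theorem base_fin {S : Finset ℤ} (hS : ∀ d ∈ S, Cl d) (hI : Inde S) (m : ℕ)
    (K : IntermediateField ℚ ℂ) [NumberField K]
    (hK : K ≤ IntermediateField.adjoin ℚ {z : ℂ | z ^ (3 ^ (m + 1)) = 1})
    (hodd : Odd (Module.finrank ℚ K)) (F₀ F : IntermediateField ℚ ℂ) [NumberField F₀]
    [NumberField F] (hF₀ : F₀ = mq S) (hF : F = mq S ⊔ K) :
    Module.finrank ℚ F₀ = 2 ^ S.card ∧ Module.finrank ℚ F = 2 ^ S.card * Module.finrank ℚ K ∧
    (Finite (AddCommGroup.primaryComponent (Sha (base (WM 1) F)) 2) ↔ MS.FiniteTwists 13 128 S) ∧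
    (Finite (AddCommGroup.primaryComponent (Sha (base (WM 1) F₀)) 2) ↔
      MS.FiniteTwists 13 128 S) := by
  obtain ⟨h1, h2, -, h4, h5, -⟩ := (MS.main 13 128 pair_14 S (base_14 hS hI)).2 plain_14
    (primes_14 hS) m K hK hodd F F₀ hF hF₀
  refine ⟨h1, h2, ?_, ?_⟩
  · rw [fin_one F]
    exact h4
  · rw [fin_one F₀]
    exact h5

/-- **From `ℚ(√d : d ∈ S)` to `K(√d : d ∈ S)`**, the order and the rank. -/
theorem base_ord {S : Finset ℤ} (hS : ∀ d ∈ S, Cl d) (m : ℕ)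
    (K : IntermediateField ℚ ℂ) [NumberField K]
    (hK : K ≤ IntermediateField.adjoin ℚ {z : ℂ | z ^ (3 ^ (m + 1)) = 1})
    (hodd : Odd (Module.finrank ℚ K)) (F₀ F : IntermediateField ℚ ℂ) [NumberField F₀]
    [NumberField F] (hF₀ : F₀ = mq S) (hF : F = mq S ⊔ K) : SE.Same F₀ F := by
  have hz : NeZero (3 ^ (m + 1)) := ⟨pow_ne_zero _ (by norm_num)⟩
  have hpp := Nat.prime_three.isPrimePow.pow (Nat.succ_ne_zero m)
  have hcop : (3 ^ (m + 1)).Coprime 14 := Nat.Coprime.pow_left _ (by norm_num)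
  obtain ⟨G₀, G, h1, h2, h3, h4, h5, h6, h7, -⟩ := Pool.Agent.Y682.XD.main
    Pool.Agent.Y682.YS.partsD (3 ^ (m + 1)) hpp hcop K hK hodd
    (Or.inl (dvd_pow_self 3 (Nat.succ_ne_zero m))) S (hypS S hS m K hK hodd) F₀ F hF₀
    (by rw [hF, hF₀])
  exact SE.same_of ⟨G₀, G, ⟨h1, h3⟩, ⟨h2, h4⟩, h5, h6⟩ h7

/-- the order is unique -/
lemma order_uniq {F : Type} [Field F] [NumberField F] {n n' : ℕ} (h : SE.HasOrder F n)
    (h' : SE.HasOrder F n') : n = n' := by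
  obtain ⟨L, l1, l2, l3⟩ := h
  obtain ⟨L', k1, k2, k3⟩ := h'
  have e := isG_uniq (F := F) (G := L) (G' := L')
    ⟨l1, fun s hs => by
      have := l2 s hs
      rwa [Pool.Agent.Results.MP_787500_nt.LayersBlochKatoLaw.factor_eq] at this⟩
    ⟨k1, fun s hs => by
      have := k2 s hs
      rwa [Pool.Agent.Results.MP_787500_nt.LayersBlochKatoLaw.factor_eq] at this⟩
  subst e
  rw [l3] at k3
  exact_mod_cast k3

lemma same_trans {F₁ F₂ F₃ : Type} [Field F₁] [NumberField F₁] [Field F₂] [NumberField F₂]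
    [Field F₃] [NumberField F₃] (h : SE.Same F₁ F₂) (h' : SE.Same F₂ F₃) : SE.Same F₁ F₃ := by
  obtain ⟨⟨n, a1, a2⟩, a3, a4⟩ := h
  obtain ⟨⟨n', b1, b2⟩, b3, b4⟩ := h'
  have e := order_uniq a2 b1
  subst e
  exact ⟨⟨n, a1, b2⟩, b3.trans a3, a4.trans b4⟩

end Pool.Agent.V11207.SF
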